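import Pool.Agent.Lib.MP_696deb_nt.Sm.Loc
import Pool.Agent.Lib.MP_696deb_nt.B2.LKa

/-! The decomposition groups are the images of the local Galois groups. -/

set_option autoImplicit false

open scoped Classical

namespace Pool.Agent.Lib.MP_696deb_nt.Q4

open Sm

/-- Locally constant functions that agree on the image of the local Galois group agree on the
decomposition group. -/
def Loc2 (F : Type) [Field F] (v : ℕ) : Prop := ∃ j : Qb →+* AlgebraicClosure F,
  ∀ (β : Type) (c c' : GQ → β), LC c → LC c' →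
    (∀ (s : AlgebraicClosure F ≃ₐ[F] AlgebraicClosure F) (σ : GQ), (∀ x, j (σ x) = s (j x)) →
      c σ = c' σ) → ∀ g ∈ Gv v, c g = c' g

/-- Every local automorphism restricts to the algebraic numbers. -/
theorem exists_restrict {F : Type} [Field F] [CharZero F] (j : Qb →+* AlgebraicClosure F)
    (s : AlgebraicClosure F ≃ₐ[F] AlgebraicClosure F) : ∃ σ : GQ, ∀ x, j (σ x) = s (j x) := by
  let _ : Algebra Qb (AlgebraicClosure F) := j.toAlgebra
  have : IsScalarTower ℚ Qb (AlgebraicClosure F) :=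
    IsScalarTower.of_algebraMap_eq fun q => (j.toRatAlgHom.commutes q).symm
  let i := ((s : AlgebraicClosure F →+* AlgebraicClosure F).comp j).toRatAlgHom
  exact ⟨i.restrictNormal' Qb, fun x => AlgHom.restrictNormal_commutes i Qb x⟩

theorem loc2_real : Loc2 ℝ 0 := by
  have : IsAlgClosure ℝ ℂ := ⟨inferInstance, inferInstance⟩
  let e : AlgebraicClosure ℝ ≃ₐ[ℝ] ℂ := IsAlgClosure.equiv ℝ _ _
  refine ⟨(e.symm : ℂ →+* AlgebraicClosure ℝ).comp jC, fun β c c' _ _ h g hg => ?_⟩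
  rcases loc_Gv0 hg with rfl | rfl
  · exact h 1 1 fun _ => rfl
  · exact h ((e.trans Complex.conjAe).trans e.symm) _ fun x => by simp [B2.jC_cc]

/-- The image of the local Galois group. -/
def linkbH {F : Type} [Field F] (j : Qb →+* AlgebraicClosure F) : Subgroup GQ where
  carrier := {σ | ∃ s : AlgebraicClosure F ≃ₐ[F] AlgebraicClosure F, ∀ x, j (σ x) = s (j x)}
  one_mem' := ⟨1, fun _ => rfl⟩
  mul_mem' := by
    rintro σ τ ⟨s, hs⟩ ⟨t, ht⟩
    exact ⟨s * t, fun x => by rw [AlgEquiv.mul_apply, AlgEquiv.mul_apply, hs, ht]⟩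
  inv_mem' := by
    rintro σ ⟨s, hs⟩
    exact ⟨s.symm, fun x => s.eq_symm_apply.2
      ((hs _).symm.trans (congrArg j (σ.apply_symm_apply x)))⟩

theorem linkb_emb (p : ℕ) [hp : Fact p.Prime] :
    ∃ j : Qb →+* PadicAlgCl p, ∀ x, nrm p x = ‖j x‖₊ := by
  let j : Qb →ₐ[ℚ] PadicAlgCl p := IsAlgClosed.lift
  obtain ⟨g, hg⟩ := B2.plc_conj (v := pl p)
    (w := ⟨p, hp.out, (PadicAlgCl.valued p).v.comap j.toRingHom, by
      rw [Valuation.comap_apply, map_natCast, PadicAlgCl.valuation_p, one_div]⟩) (pl_p hp.out).symm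
  exact ⟨j.toRingHom.comp (g⁻¹ : GQ), fun x => by rw [nrm, ← hg]; rfl⟩

theorem loc2_padic (p : ℕ) [Fact p.Prime] : Loc2 ℚ_[p] p := by
  obtain ⟨j, hj⟩ := linkb_emb p
  refine ⟨j, fun β c c' hc hc' h g hg => ?_⟩
  rw [Gv_prime Fact.out] at hg
  have h1 : g ∈ (linkbH (F := ℚ_[p]) j).topologicalClosure := by
    refine B2.mem_of_fx (Subgroup.isClosed_topologicalClosure _) fun x hx => ?_
    obtain ⟨y, hy⟩ := (InfiniteGalois.mem_range_algebraMap_iff_fixed (k := ℚ_[p]) (j x)).2
      fun s => by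
        obtain ⟨σ, hσ⟩ := exists_restrict j s
        exact (hσ x).symm.trans (congrArg j (hx σ (Subgroup.le_topologicalClosure _ ⟨s, hσ⟩)))
    by_contra k
    have k0 : 0 < nrm p (g x - x) := (nrm p).pos_iff.2 (sub_ne_zero.2 k)
    obtain ⟨r, hr⟩ := Padic.rat_dense p y (NNReal.coe_pos.2 k0)
    have k1 : nrm p (x - r) < nrm p (g x - x) := by
      rw [hj, ← NNReal.coe_lt_coe, coe_nnnorm, map_sub, map_ratCast, ← hy,
        ← map_ratCast (algebraMap ℚ_[p] (PadicAlgCl p)), ← map_sub, norm_algebraMap']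
      exact hr
    have k2 : nrm p (g x - r) < nrm p (g x - x) := by
      rwa [← B2.mem_Dec.1 hg, map_sub, map_ratCast] at k1
    have k3 := (nrm p).map_sub_lt k2 k1
    rw [sub_sub_sub_cancel_right] at k3
    exact k3.false
  obtain ⟨U, u1, -, u2⟩ := hc.comp₂ hc' fun a b => a = b
  obtain ⟨σ, s1, s, s2⟩ := mem_closure_iff_nhds.1 h1 _ (B2.b1a_coset u1 g)
  exact (u2 g trivial σ trivial s1).mpr (h s σ s2)

theorem lc_of_locallyConstant {β : Type} {c : GQ → β} (h : IsLocallyConstant c) : LC c := by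
  let _ : TopologicalSpace β := ⊥
  have : DiscreteTopology β := ⟨rfl⟩
  exact B2.Sm.of_continuousOn isClosed_univ h.continuous.continuousOn

end Pool.Agent.Lib.MP_696deb_nt.Q4
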