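import Pool.Agent.Lib.MP_696deb_nt.Q4.Sel
import Pool.Agent.Lib.MP_696deb_nt.Sm.SelB
import Pool.Agent.Lib.MP_696deb_nt.Sm.SelC

/-! Counting lifts, reciprocity. -/

set_option autoImplicit false

open scoped Classical
open Finset

namespace Pool.Agent.Lib.MP_696deb_nt.Q4

open Sm

namespace Tw

variable {t : Tw} {J : Set ℕ} {n : ℕ} {c : GQ → A}

theorem finite_AA (t : Tw) (n : ℕ) : (t.AA n).Finite := (t.it n).finite_one.subset (t.AA_sub n)

/-- The lifts form a coset. -/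
theorem selb_Om {c' : GQ → A} (h : c' ∈ t.Om n c) : t.Om n c = (fun z => c' + z) '' t.ZZ n := by
  ext x
  constructor
  · rintro ⟨h1, h2⟩
    refine ⟨x - c', (h1.sub h.1).level fun g => ?_, add_sub_cancel _ _⟩
    rw [← Pi.smul_apply, smul_sub, h2, h.2, sub_self, Pi.zero_apply]
  · rintro ⟨z, hz, rfl⟩
    refine ⟨h.1.add (IsZ.level hz fun g => ?_), ?_⟩
    · rw [pow_succ', mul_smul, IsZ.tors hz, smul_zero]
    · rw [smul_add, h.2, show w ^ n • z = 0 from funext (IsZ.tors hz), add_zero]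

theorem selb_succ (t : Tw) (n : ℕ) : (t.it 1).AA (n + 1) ⊆ t.AA n := by
  have h := (t.it 1).AA_succ n
  rwa [it_it, AA_it_two] at h

theorem selb_anti (t : Tw) {i m : ℕ} (h : i ≤ m) : t.AA (2 * m) ⊆ t.AA (2 * i) :=
  antitone_nat_of_succ_le (f := fun m => t.AA (2 * m))
    (fun m => (t.AA_succ (2 * m + 1)).trans (t.selb_succ (2 * m))) h

theorem selb_pow (t : Tw) (n : ℕ) : ∃ k, (t.AA n).ncard = 2 ^ k := by
  have h2 : ∀ c ∈ t.AA n, c + c = 0 := fun c hc => funext fun g => by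
    obtain ⟨b, hb⟩ := exists_kT (P := c g) (by simpa using IsZ.tors (t.AA_sub n hc) g)
    rw [Pi.add_apply, hb, ← map_add, CharTwo.add_self_eq_zero, map_zero, Pi.zero_apply]
  let H : AddSubgroup (GQ → A) :=
    { carrier := t.AA n
      add_mem' := add_mem_AA
      zero_mem' := ⟨0, t.isZ_zero ∅ _, smul_zero _⟩
      neg_mem' := fun {c} hc => by rwa [neg_eq_of_add_eq_zero_left (h2 c hc)] }
  have : Finite H := t.finite_AA n
  have hp : IsPGroup 2 (Multiplicative H) := fun c =>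
    ⟨1, Subtype.ext ((two_nsmul _).trans (h2 _ (Multiplicative.toAdd c).2))⟩
  exact hp.exists_card_eq

theorem card_Om_eq (h : c ∈ t.AA n) : (t.Om n c).ncard = (t.ZZ n).ncard := by
  obtain ⟨c', h'⟩ := h
  rw [selb_Om h', Set.ncard_image_of_injective _ (add_right_injective c')]

theorem finite_ZZ (t : Tw) (n : ℕ) : (t.ZZ n).Finite := by
  induction n with
  | zero =>
    exact (Set.finite_singleton 0).subset fun c hc => funext fun g => by simpa using IsZ.tors hc g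
  | succ n ih =>
    refine Set.Finite.of_finite_fibers (fun x => w ^ n • x) (t.finite_AA n) ?_
    rintro _ ⟨x, hx, rfl⟩
    exact (ih.image _).subset (selb_Om (c' := x) ⟨hx, rfl⟩).subset

theorem card_ZZ_succ (t : Tw) (n : ℕ) :
    (t.ZZ (n + 1)).ncard = (t.ZZ n).ncard * (t.AA n).ncard := by
  exact le_antisymm
    (selb_le (t.finite_ZZ (n + 1)) (fun x => w ^ n • x) fun x hx => (card_Om_eq ⟨x, hx, rfl⟩).le)
    (selb_ge (t.finite_ZZ (n + 1)) (fun x => w ^ n • x) fun x hx => (card_Om_eq ⟨x, hx, rfl⟩).ge)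

theorem card_Om_zero (h : t.IsZ ∅ 1 c) : (t.Om 0 c).ncard = 1 := by
  refine Set.ncard_eq_one.2 ⟨c, Set.eq_singleton_iff_unique_mem.2 ⟨⟨h, by simp⟩, fun y hy => ?_⟩⟩
  simpa using hy.2

/-- Many lifts when many classes lift. -/
theorem card_Om {m : ℕ} (h : c ∈ t.AA (2 * m)) (h16 : t.Big (2 * m)) :
    16 ^ m ≤ (t.Om (2 * m) c).ncard := by
  have key : ∀ i ≤ m, 16 ^ i ≤ (t.ZZ (2 * i)).ncard := fun i hi => by
    induction i with
    | zero => exact (Set.ncard_pos (t.finite_ZZ 0)).2 ⟨0, t.isZ_zero ∅ 0⟩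
    | succ i ih =>
      have h1 := (Nat.le_succ i).trans hi
      have h2 := Set.ncard_le_ncard (t.selb_anti h1) (t.finite_AA _)
      have h3 := Set.ncard_le_ncard (((t.it 1).selb_anti hi).trans (t.selb_succ (2 * i + 1)))
        (t.finite_AA _)
      rw [show 2 * (i + 1) = 2 * i + 1 + 1 by ring, card_ZZ_succ, card_ZZ_succ, mul_assoc, pow_succ]
      exact Nat.mul_le_mul (ih h1) (le_trans h16 (Nat.mul_le_mul h2 h3))
  exact (key m le_rfl).trans (card_Om_eq h).ge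

theorem card_Om_succ (t : Tw) (n : ℕ) (c : GQ → A) : (t.Om (n + 1) c).ncard ≤
    (t.ZZ 1).ncard * ((fun x : GQ → A => w • x) '' t.Om (n + 1) c).ncard := by
  refine selb_le ((t.finite_ZZ (n + 1 + 1)).subset fun x hx => hx.1) _ fun x hx => ?_
  rw [← Set.ncard_image_of_injective (t.ZZ 1) (add_right_injective x)]
  refine Set.ncard_le_ncard (fun y hy => ⟨y - x, ?_, add_sub_cancel _ _⟩) ((t.finite_ZZ 1).image _)
  refine (hy.1.1.sub hx.1).level fun g => ?_
  rw [pow_one, ← Pi.smul_apply, smul_sub, hy.2, sub_self, Pi.zero_apply]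

/-- Few Selmer cocycles when few classes lift. -/
theorem card_ZZ_le {m : ℕ} (h : ¬ t.Big (2 * m)) :
    ∃ C : ℕ, ∀ k, (t.ZZ (2 * k)).ncard ≤ C * 8 ^ k := by
  have h8 : (t.AA (2 * m)).ncard * ((t.it 1).AA (2 * m)).ncard ≤ 8 := by
    obtain ⟨a, ha⟩ := t.selb_pow (2 * m)
    obtain ⟨b, hb⟩ := (t.it 1).selb_pow (2 * m)
    rw [Big, not_le, ha, hb, ← pow_add] at h
    have h4 : a + b < 4 := (Nat.pow_lt_pow_iff_right one_lt_two).1 h
    rw [ha, hb, ← pow_add]
    exact Nat.pow_le_pow_right (i := a + b) (j := 3) two_pos (by omega)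
  have key : ∀ k, (t.ZZ (2 * (m + k))).ncard ≤ (t.ZZ (2 * m)).ncard * 8 ^ k := by
    intro k
    induction k with
    | zero => simp
    | succ k ih =>
      have h2 := Set.ncard_le_ncard (t.selb_anti (m.le_add_right k)) (t.finite_AA _)
      have h3 := Set.ncard_le_ncard ((t.AA_succ (2 * (m + k))).trans
        ((t.it 1).selb_anti (m.le_add_right k))) ((t.it 1).finite_AA _)
      rw [show 2 * (m + (k + 1)) = 2 * (m + k) + 1 + 1 by ring, card_ZZ_succ, card_ZZ_succ,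
        mul_assoc, pow_succ, ← mul_assoc _ (8 ^ k)]
      exact Nat.mul_le_mul ih (le_trans (Nat.mul_le_mul h2 h3) h8)
  refine ⟨_, fun k => le_trans (Set.ncard_le_ncard (fun z hz => IsZ.level hz fun g => ?_)
    (t.finite_ZZ (2 * (m + k)))) (key k)⟩
  rw [mul_add, pow_add, mul_smul, IsZ.tors hz, smul_zero]

/-- Reciprocity: a homomorphism that is Selmer up to unramified defects on `J` and at `r`,
paired with a Selmer class of the other side that is unramified on `J`. -/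
theorem recip (ht : t.Sq) {r : ℕ} {d b : ℤ} (hd : d ≠ 0) (b0 : b ≠ 0)
    (hJ : ∀ q ∈ insert r J, q.Prime ∧ q ≠ 2 ∧ (q : ℤ) ∣ t.N)
    (hc : t.IsZ (insert r J) 1 (kum d)) (hb : (t.it 1).IsZ ∅ 1 (kum b))
    (hbJ : ∀ q ∈ J, q ≠ r → chi b (sig q) = 0) {u : GQ → A} (hu : u (sig r) = 0)
    (hl : t.LocT r (kum d - u)) {a : F2} (ha : u (frb r) = kT a) : a * chi b (sig r) = 0 := by
  obtain ⟨rp, r2, rN⟩ := hJ r (Set.mem_insert _ _)
  have lb : ∀ q : ℕ, q.Prime → q ≠ 2 → (q : ℤ) ∣ t.N →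
      ∀ g ∈ Gv q, chi b g = chi b (sig q) * chi (t.it 1).N g := fun q hq q2 qN g hg =>
    kT_inj (LocT.one hq q2 (ht.it 1 q hq q2 ((t.dvd_it hq q2 1).2 qN))
      (hb.ram q hq q2 ((t.dvd_it hq q2 1).2 qN) (Set.notMem_empty q)) rfl g hg)
  have k0 : ∀ {x : F2}, kT x = 0 → x = 0 := fun h => kT_inj (h.trans (map_zero kT).symm)
  have N0 : (2 * r * (d * b)).natAbs ≠ 0 := by simp [hd, b0, rp.ne_zero]
  have mem : ∀ p : ℕ, p.Prime → (p : ℤ) ∣ 2 * r * (d * b) →
      p ∈ insert 0 (2 * r * (d * b)).natAbs.primeFactors := fun p hp h =>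
    mem_insert_of_mem (Nat.mem_primeFactors.2 ⟨hp, Int.natCast_dvd.1 h, N0⟩)
  have hV : ∀ v ∈ insert 0 (2 * r * (d * b)).natAbs.primeFactors, v = 0 ∨ v.Prime :=
    fun v hv => (mem_insert.1 hv).imp_right Nat.prime_of_mem_primeFactors
  have s1 := hs_sum hd b0 _ (mem_insert_self _ _)
    (mem 2 Nat.prime_two ((dvd_mul_right _ _).mul_right _)) hV fun p hp h =>
      mem p hp (h.mul_left _)
  have s3 : hs r d b = 0 := by
    rw [← s1, sum_eq_single_of_mem r (mem r rp ((dvd_mul_left _ _).mul_right _)) fun v hv hr => ?_]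
    by_cases k : v = 0 ∨ v = 2
    · exact loc_iso (hV v hv) hd b0 (hc.loc v k) (hb.loc v k)
    have vp := (hV v hv).resolve_left fun h => k (Or.inl h)
    have v2 : v ≠ 2 := fun h => k (Or.inr h)
    by_cases vN : (v : ℤ) ∣ t.N
    · by_cases k' : v ∈ insert r J
      · rw [hs_comm]
        refine hs_triv (Or.inr vp) b0 hd fun g hg => ?_
        rw [lb v vp v2 vN g hg, hbJ v (k'.resolve_left hr) hr, zero_mul]
      · exact loc_iso (hV v hv) hd b0 (hc.ram v vp v2 vN k').loc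
          (hb.ram v vp v2 ((t.dvd_it vp v2 1).2 vN) (Set.notMem_empty v)).loc
    · rw [hs_odd vp v2 hd b0, k0 (hc.unr v vp v2 vN),
        k0 (hb.unr v vp v2 fun h => vN ((t.dvd_it vp v2 1).1 h))]
      simp
  have t1 := LocT.one rp r2 (ht r rp r2 rN) hl (b := chi d (sig r))
    (by rw [Pi.sub_apply, hu, sub_zero, kum]) _ (frb_mem rp r2)
  rw [Pi.sub_apply, ha, kum, ← map_sub] at t1
  have t2 := kT_inj t1
  have t3 := lb r rp r2 rN _ (frb_mem rp r2)
  rw [chi_it, chi_frb rp r2 (d := -1) fun h =>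
    (Nat.prime_iff_prime_int.1 rp).not_dvd_one (dvd_neg.1 h), Nat.cast_one, one_mul] at t3
  rw [hs_odd rp r2 hd b0, t3, sub_eq_iff_eq_add.1 t2] at s3
  have two : (2 : F2) = 0 := rfl
  linear_combination s3 - (chi d (sig r) * chi b (sig r) *
    (chi t.N (frb r) + aleg r (-1))) * two

end Tw

end Pool.Agent.Lib.MP_696deb_nt.Q4
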