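import Pool.Agent.Lib.MP_696deb_nt.B2.Stmt

/-! The family of quartic twists. -/

set_option autoImplicit false

namespace Pool.Agent.Lib.MP_696deb_nt.Q4

/-- The curve `y ^ 2 = x ^ 3 - D x`. -/
def ED (D : ℤ) : WeierstrassCurve ℚ :=
  { a₁ := 0, a₂ := 0, a₃ := 0, a₄ := ((-D : ℤ) : ℚ), a₆ := ((0 : ℤ) : ℚ) }

end Pool.Agent.Lib.MP_696deb_nt.Q4
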