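import Pool.Agent.Lib.MP_696deb_nt.Q4.LinkA
import Pool.Agent.Lib.MP_696deb_nt.Q4.LinkB
import Pool.Agent.Lib.MP_696deb_nt.Q4.SelB
import Pool.Agent.Lib.MP_696deb_nt.Q4.Pat
import Pool.Agent.Lib.MP_696deb_nt.Q4.Stmt

/-! From few liftable classes to the corank bound. -/

set_option autoImplicit false

open scoped Classical

namespace Pool.Agent.Lib.MP_696deb_nt.Q4

open Sm

open WeierstrassCurve WeierstrassCurve.Affine B2.Stmt

section psi

variable {K L : Type} [Field K] [CharZero K] [Field L] [CharZero L] {D : ℤ}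

theorem link_ne (hD : D ≠ 0) {ρ : K} (h : ρ ^ 4 = D) : ρ ≠ 0 := by
  rintro rfl
  exact hD (by exact_mod_cast (h.symm.trans (by norm_num) : (D : K) = 0))

theorem link_vc (hD : D ≠ 0) {ρ : K} (h : ρ ^ 4 = D) :
    VC (RingHom.id K) ((ED D).baseChange K) (W1 K) (1 / ρ) 0 0 0 := by
  have h0 := link_ne hD h
  refine ⟨by simp [h0], ?_, ?_, ?_, ?_, ?_⟩ <;> simp [ED, W1, WeierstrassCurve.baseChange]
  rw [← h]
  field_simp

/-- The isomorphism between the twist and the curve. -/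
noncomputable def linkPsi (hD : D ≠ 0) {ρ : K} (h : ρ ^ 4 = D) : Pts (ED D) K ≃+ P1 K :=
  AddEquiv.ofBijective (link_vc hD h).hom ⟨(link_vc hD h).hom_injective, by
    have h0 := link_ne hD h
    rintro (_ | ⟨X, Y, k⟩)
    · exact ⟨0, rfl⟩
    · exact (link_vc hD h).mem_range k (x := X * ρ ^ 2) (y := Y * ρ ^ 3)
        (by rw [RingHom.id_apply]; field_simp; ring)
        (by simp only [RingHom.id_apply]; field_simp; ring)⟩

theorem link_pm (hD : D ≠ 0) {ρ : K} (h : ρ ^ 4 = D) {ρ' : L} (h' : ρ' ^ 4 = D) (f : K →+* L)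
    (P : Pts (ED D) K) :
    linkPsi hD h' (pm (ED D) f P) = vm f (f ρ / ρ') (linkPsi hD h P) := by
  have h0 := link_ne hD h
  have h1 := link_ne hD h'
  have h2 : f ρ ≠ 0 := (map_ne_zero f).2 h0
  have hu : (f ρ / ρ') ^ 4 = 1 := by
    rw [div_pow, ← map_pow, h, h', map_intCast, div_self (by exact_mod_cast hD)]
  rcases P with _ | ⟨x, y, k⟩
  · exact (map_zero _).trans ((map_zero _).symm.trans (congrArg _ (map_zero _).symm))
  obtain ⟨k', e⟩ := vm_some (f := f) hu (((link_vc hD h).nonsingular x y).mpr k)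
  refine Eq.trans ?_ e.symm
  refine (Point.some.injEq ..).mpr ⟨?_, ?_⟩ <;> simp <;> field_simp

end psi

section loc

variable {F : Type} [Field F] [CharZero F] (j : Qb →+* AlgebraicClosure F) (t : Tw)

theorem link_jI : j II * j II = -1 := by rw [← map_mul, II_mul, map_neg, map_one]

theorem link_wb : 1 - j II ≠ 0 := fun e => by
  have h := link_jI j
  rw [← sub_eq_zero.1 e] at h
  norm_num at h

omit [CharZero F] in
theorem link_j4 : j t.ρ ^ 4 = t.N := by rw [← map_pow, t.pw, map_intCast]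

theorem link_u4 (s : AbsGal F) : (s (j t.ρ) / j t.ρ) ^ 4 = 1 := by
  rw [div_pow, ← map_pow, link_j4, map_intCast, div_self (by exact_mod_cast t.ne)]

theorem link_wm_j (m : ℕ) (P : A) : (wm (j II))^[m] (vm j 1 P) = vm j 1 (w ^ m • P) := by
  induction m with
  | zero => simp
  | succ m ih =>
    rw [Function.iterate_succ_apply', ih, wm_vm II_mul (link_jI j) (by norm_num), pow_succ',
      mul_smul, w_smul, map_sub, map_one, div_self (link_wb j), mul_one]

theorem link_wm_s (s : AbsGal F) (m : ℕ) (P : P1 (AlgebraicClosure F)) :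
    (wm (j II))^[m] (ltw j t s P) = ltw j (t.it m) s ((wm (j II))^[m] P) := by
  induction m with
  | zero => rw [Tw.it_zero]; rfl
  | succ m ih =>
    rw [Function.iterate_succ_apply', Function.iterate_succ_apply', ih, ltw, ltw,
      wm_vm (link_jI j) (link_jI j) (link_u4 j _ s)]
    congr 2
    have e : (t.it (m + 1)).ρ = (t.it m).ρ * (1 - II) := by simp only [Tw.it]; ring
    rw [e, map_mul, map_mul, map_sub j, map_one j, div_mul_div_comm]
    rfl

theorem link_ltw (s : AbsGal F) (σ : GQ) (h : ∀ x, j (σ x) = s (j x)) (Q : A) :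
    ltw j t s (vm j 1 Q) = vm j 1 (t.tw σ Q) := by
  have e : (s : AlgebraicClosure F →+* AlgebraicClosure F).comp j = j.comp (σ : Qb →+* Qb) :=
    RingHom.ext fun x => (h x).symm
  rw [ltw, Tw.tw, vm_comp (by norm_num) (link_u4 j t s), vm_comp (t.four σ) (by norm_num), e,
    map_one, mul_one, one_mul, zq, map_div₀, h]

variable {j t}

theorem link_loc (hF : Dense2 F) {v m : ℕ} (h2 : Loc2 F v) {c : GQ → A} (hc : LC c)
    (hm : ∀ g, w ^ m • c g = 0)
    (h : ∀ j : Qb →+* AlgebraicClosure F, ∃ S, ∀ (s : AbsGal F) (σ : GQ),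
      (∀ x, j (σ x) = s (j x)) → vm j 1 (c σ) = ltw j t s S - S) : t.Loc v c := by
  obtain ⟨j, hj⟩ := h2
  obtain ⟨S, hS⟩ := h j
  obtain ⟨Q, R, hR, rfl⟩ := alg_of_fixed hF j m t S fun s => by
    obtain ⟨σ, hσ⟩ := exists_restrict j s
    have e := congrArg (wm (j II))^[m] (hS s σ hσ)
    rw [link_wm_j, hm, map_zero, iterate_map_sub, link_wm_s] at e
    exact sub_eq_zero.1 e.symm
  refine ⟨Q, hj _ _ _ hc (t.lc_cob Q) fun s σ hσ => vm_inj (f := j) (u := 1) (by norm_num) ?_⟩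
  rw [hS s σ hσ, map_add, hR, link_ltw j t s σ hσ, Tw.cob, map_sub]
  abel

end loc

theorem link_sel (t : Tw) {k : ℕ} {ξ : GQ → Pts (ED t.N) Qb} (h : IsSel (ED t.N) (2 ^ k) ξ) :
    t.IsSel (2 * k) fun g => linkPsi t.ne t.pw (ξ g) := by
  obtain ⟨h1, h2, h3, h4, h5⟩ := h
  have ht : ∀ g, w ^ (2 * k) • linkPsi t.ne t.pw (ξ g) = 0 := fun g =>
    (two_pow_iff k _).1 ((map_nsmul (linkPsi t.ne t.pw) _ _).symm.trans
      ((congrArg _ (h2 g)).trans (map_zero _)))
  have hl : LC fun g => linkPsi t.ne t.pw (ξ g) := lc_of_locallyConstant (h1.comp _)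
  have key : ∀ (F : Type) [Field F] [CharZero F], LocTriv (ED t.N) F ξ →
      ∀ j : Qb →+* AlgebraicClosure F, ∃ S, ∀ (s : AbsGal F) (σ : GQ),
        (∀ x, j (σ x) = s (j x)) → vm j 1 (linkPsi t.ne t.pw (ξ σ)) = ltw j t s S - S := by
    intro F _ _ hF j
    obtain ⟨S, hS⟩ := hF j
    refine ⟨linkPsi t.ne (link_j4 j t) S, fun s σ k => ?_⟩
    have e := congrArg (linkPsi t.ne (link_j4 j t)) (hS s σ k)
    rw [map_sub, link_pm t.ne t.pw, link_pm t.ne (link_j4 j t),
      div_self (link_ne t.ne (link_j4 j t))] at e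
    exact e
  refine ⟨ht, fun g g' => ?_, hl, ?_⟩
  · have e := congrArg (linkPsi t.ne t.pw) (h3 g g')
    rw [map_add, link_pm t.ne t.pw] at e
    exact e
  · rintro v (rfl | hv)
    · exact link_loc dense2_real loc2_real hl ht (key ℝ h4)
    · have := Fact.mk hv
      exact link_loc (dense2_padic v) (loc2_padic v) hl ht (key _ (h5 v))

theorem link_cob (t : Tw) {n : ℕ} {S : A} (h : w ^ n • S = 0) : t.IsSel n (t.cob S) :=
  ⟨fun g => by rw [Tw.w_cob, h, Tw.cob, map_zero, sub_zero], t.cob_mul S, t.lc_cob S,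
    fun _ _ => ⟨S, fun _ _ => rfl⟩⟩

theorem link_card (n : ℕ) : 2 ^ n ≤ {P : A | w ^ n • P = 0}.ncard := by
  induction n with
  | zero => exact (Set.ncard_pos (finite_tors 0)).2 ⟨0, smul_zero _⟩
  | succ n ih =>
    choose r hr using exists_root 1
    simp only [pow_one] at hr
    have h1 := Set.ncard_le_ncard_of_injOn (s := {P : A | w ^ n • P = 0} ×ˢ (Set.univ : Set F2))
      (t := {P : A | w ^ (n + 1) • P = 0}) (fun x => r x.1 + kT x.2) (by
        rintro ⟨P, b⟩ ⟨h, -⟩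
        change w ^ (n + 1) • (r P + kT b) = 0
        rw [pow_succ, mul_smul, smul_add, hr, w_kT, add_zero]
        exact h) (by
        rintro ⟨P, b⟩ - ⟨P', b'⟩ - e
        have e1 := congrArg (w • ·) e
        simp only [smul_add, hr, w_kT, add_zero] at e1
        subst e1
        exact Prod.ext rfl (kT_inj (add_left_cancel e))) (finite_tors _)
    rw [Set.ncard_prod, Set.ncard_univ, Nat.card_zmod] at h1
    omega

theorem link_sq {D : ℤ} (hD : Squarefree D) {q : ℕ} (hq : q.Prime) (h : (q : ℤ) ∣ D) :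
    padicValInt q D = 1 := by
  have := Fact.mk hq
  have h1 : 1 ≤ padicValInt q D := ((padicValInt_dvd_iff 1 D).1 (by simpa using h)).resolve_left
    hD.ne_zero
  by_contra k
  have h2 : (q : ℤ) ^ 2 ∣ D := (padicValInt_dvd_iff 2 D).2 (.inr (by omega))
  have := hD q (by rwa [← sq])
  rw [Int.isUnit_iff_natAbs_eq, Int.natAbs_natCast] at this
  exact hq.ne_one this

theorem link_main (t : Tw) (hD : Squarefree t.N) (h2 : 2 < t.N.natAbs) {r C : ℕ}
    (h : ∀ k, (t.ZZ (2 * k)).ncard ≤ C * (4 * 2 ^ r) ^ k) : CorankLE (ED t.N) r := by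
  have hsq : t.Sq := fun q hq _ h => link_sq hD hq h
  obtain ⟨q, hq, hqD, hq2⟩ : ∃ q : ℕ, q.Prime ∧ (q : ℤ) ∣ t.N ∧ q ≠ 2 := by
    rcases Nat.four_dvd_or_exists_odd_prime_and_dvd_of_two_lt h2 with h4 | ⟨q, a, b, c⟩
    · have := hD 2 (by simpa using Int.natCast_dvd.2 h4)
      rw [Int.isUnit_iff_natAbs_eq] at this
      exact absurd this (by decide)
    · exact ⟨q, a, Int.natCast_dvd.2 b, fun e => by rw [e] at c; exact absurd c (by decide)⟩
  refine ⟨2 * C, fun k s hs hc => ?_⟩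
  let Φ : (GQ → Pts (ED t.N) Qb) × A → GQ → A := fun x =>
    (fun g => linkPsi t.ne t.pw (x.1 g)) + t.cob x.2
  let U := (finite_tors (2 * k)).toFinset
  have hU : ∀ S ∈ U, w ^ (2 * k) • S = 0 := fun S hS => (finite_tors _).mem_toFinset.1 hS
  have h1 : (s ×ˢ U).card ≤ 2 * ((s ×ˢ U).image Φ).card := by
    refine Finset.card_le_mul_card_image _ _ fun y hy => ?_
    obtain ⟨⟨ξ, S⟩, hx, rfl⟩ := Finset.mem_image.1 hy
    obtain ⟨hξ, hS⟩ := Finset.mem_product.1 hx
    refine (Finset.card_le_card (t := Finset.univ.image fun b : F2 => (ξ, S + kT b)) ?_).trans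
      (Finset.card_image_le.trans (by simp))
    rintro ⟨η, S'⟩ hx'
    obtain ⟨hx1, e⟩ := Finset.mem_filter.1 hx'
    obtain ⟨hη, hS'⟩ := Finset.mem_product.1 hx1
    have hd : w ^ (2 * k) • (S' - S) = 0 := by rw [smul_sub, hU S hS, hU S' hS', sub_zero]
    have e1 : ∀ g, linkPsi t.ne t.pw (ξ g) - linkPsi t.ne t.pw (η g) = t.cob (S' - S) g := fun g => by
      have e2 : linkPsi t.ne t.pw (η g) + t.cob S' g = linkPsi t.ne t.pw (ξ g) + t.cob S g :=
        congrFun e g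
      simp only [Tw.cob, map_sub] at e2 ⊢
      rw [sub_eq_iff_eq_add, ← sub_eq_iff_eq_add.2 e2.symm]
      abel
    obtain rfl : ξ = η := hc ξ hξ η hη ⟨(linkPsi t.ne t.pw).symm (S' - S),
      (map_nsmul (linkPsi t.ne t.pw).symm _ _).symm.trans
        ((congrArg _ ((two_pow_iff k _).2 hd)).trans (map_zero _)),
      fun g : GQ => (linkPsi t.ne t.pw).injective (by
        rw [map_sub, map_sub, link_pm t.ne t.pw, AddEquiv.apply_symm_apply]
        exact e1 g)⟩
    have e3 := e1 (sig q)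
    rw [sub_self, t.cob_sig hq hq2 hd] at e3
    obtain ⟨b, hb⟩ := exists_kT
      ((Tw.unit_sig hq hq2 (link_sq hD hq hqD)).smul_eq_zero.1 e3.symm)
    exact Finset.mem_image.2 ⟨b, Finset.mem_univ _, by rw [← hb, add_sub_cancel]⟩
  have h3 : ((s ×ˢ U).image Φ).card ≤ (t.ZZ (2 * k)).ncard := by
    rw [← Set.ncard_coe_finset]
    refine Set.ncard_le_ncard (fun y hy => ?_) (t.finite_ZZ _)
    obtain ⟨⟨ξ, S⟩, hx, rfl⟩ := Finset.mem_image.1 (Finset.mem_coe.1 hy)
    obtain ⟨hξ, hS⟩ := Finset.mem_product.1 hx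
    exact ((link_sel t (hs ξ hξ)).isZ hsq).add ((link_cob t (hU S hS)).isZ hsq)
  have h4 : 4 ^ k ≤ U.card := by
    rw [show 4 = 2 ^ 2 from rfl, ← pow_mul]
    exact (link_card _).trans_eq (Set.ncard_eq_toFinset_card _ _)
  rw [Finset.card_product] at h1
  refine Nat.le_of_mul_le_mul_right (c := 4 ^ k) ?_ (by positivity)
  calc s.card * 4 ^ k ≤ 2 * (C * (4 * 2 ^ r) ^ k) :=
        ((Nat.mul_le_mul_left _ h4).trans h1).trans (Nat.mul_le_mul_left _ (h3.trans (h k)))
    _ = 2 * C * 2 ^ (r * k) * 4 ^ k := by rw [mul_pow, pow_mul]; ring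

/-- A bound for the number of Selmer cocycles gives a bound for the corank. -/
theorem corank_of_card {D : ℤ} (hD : Squarefree D) (h2 : 2 < D.natAbs) {r C : ℕ}
    (h : ∀ k, ((tD D).ZZ (2 * k)).ncard ≤ C * (4 * 2 ^ r) ^ k) : B2.Stmt.CorankLE (ED D) r := by
  have e := tD_N hD.ne_zero
  have k := link_main (tD D) (e.symm ▸ hD) (e.symm ▸ h2) h
  rwa [e] at k

theorem corank_of {D : ℤ} (hD : Squarefree D) (h2 : 2 < D.natAbs) {m : ℕ}
    (h : ¬ (tD D).Big (2 * m)) :
    B2.Stmt.CorankLE (ED D) 1 := by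
  obtain ⟨C, hC⟩ := Tw.card_ZZ_le h
  exact corank_of_card hD h2 (C := C) hC

end Pool.Agent.Lib.MP_696deb_nt.Q4
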