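import Pool.Agent.Lib.MP_696deb_nt.Q4.Pat

/-! Refinement of boxes. -/

set_option autoImplicit false

open scoped Classical
open Finset Function

namespace Pool.Agent.Lib.MP_696deb_nt.Q4

open Sm

/-- An integer that is one modulo sixteen is a fourth power at two. -/
theorem refine_four {n : ℤ} (h : n % 16 = 1) : ∃ z : Qb, z ^ 4 = n ∧ Fx (Gv 2) z := by
  have hs : Fx (Gv 2) (rt (n : Qb)) := fx_rt (fx_int _ n) (chi_Gv_two (by omega))
  have h2 : nrm 2 (2 : Qb) = (2 : NNReal)⁻¹ := by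
    have := (pl 2).hV
    rw [pl_p Nat.prime_two] at this
    simpa using this
  have h4 : nrm 2 (4 : Qb) = (2 : NNReal)⁻¹ * 2⁻¹ := by
    rw [show (4 : Qb) = 2 * 2 by norm_num, map_mul, h2]
  have key : ∃ s : Qb, s * s = n ∧ Fx (Gv 2) s ∧ nrm 2 (s - 1) < nrm 2 4 := by
    by_contra k
    push Not at k
    have a1 := k _ (rt_mul_self _) hs
    have a2 := k (-rt (n : Qb)) (by rw [neg_mul_neg, rt_mul_self])
      (fun g hg => by rw [map_neg, hs g hg])
    obtain ⟨m, hm⟩ : ∃ m : ℤ, n = 16 * m + 1 := ⟨n / 16, by omega⟩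
    have a3 : (rt (n : Qb) - 1) * (-rt (n : Qb) - 1) = 4 * 4 * ((-m : ℤ) : Qb) := by
      have e : (n : Qb) = 16 * m + 1 := by rw [hm]; push_cast; ring
      push_cast
      linear_combination -rt_mul_self (n : Qb) - e
    have a4 : nrm 2 (rt (n : Qb) - 1) * nrm 2 (-rt (n : Qb) - 1) ≤ nrm 2 4 * nrm 2 4 := by
      rw [← map_mul, a3, map_mul, map_mul]
      exact mul_le_of_le_one_right' (nrm_int_le _)
    have a5 := (nrm 2).map_add (rt (n : Qb) - 1) (-rt (n : Qb) - 1)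
    rw [show rt (n : Qb) - 1 + (-rt (n : Qb) - 1) = -2 by ring, Valuation.map_neg, h2] at a5
    rw [h4] at a1 a2 a4
    rcases le_max_iff.1 a5 with a6 | a6
    · have := (mul_le_mul' a6 a2).trans a4
      rw [← NNReal.coe_le_coe] at this
      norm_num at this
    · have := (mul_le_mul' a1 a6).trans a4
      rw [← NNReal.coe_le_coe] at this
      norm_num at this
  obtain ⟨s, s1, s2, s3⟩ := key
  have f1 : Fx (Gv 2) (1 : Qb) := fun g _ => map_one g
  refine ⟨rt s, ?_, fx_rt s2 fun g hg => ?_⟩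
  · rw [show rt s ^ 4 = (rt s * rt s) * (rt s * rt s) by ring, rt_mul_self, s1]
  · rw [chB_close Nat.prime_two le_rfl s2 f1 (by rwa [map_one, one_mul]) g hg]
    simpa using chB_sq (w := 1) (map_one g)

theorem refine_zq {u : Qb} (hu : u ^ 4 = 1) :
    (∀ g, zq u g = 1) ∨ ∀ g, zq u g = zq II g := by
  have h : (u - 1) * (u + 1) * ((u - II) * (u + II)) = 0 := by
    linear_combination hu - (u ^ 2 - 1) * II_mul
  rcases mul_eq_zero.1 h with h | h <;> rcases mul_eq_zero.1 h with h | h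
  · exact .inl fun g => by rw [sub_eq_zero.1 h]; simp [zq]
  · exact .inl fun g => by rw [eq_neg_of_add_eq_zero_left h]; simp [zq]
  · exact .inr fun g => by rw [sub_eq_zero.1 h]
  · exact .inr fun g => by rw [eq_neg_of_add_eq_zero_left h, zq, zq, map_neg, neg_div_neg_eq]

theorem refine_two {p : ℕ} (hp : Odd p) :
    (∀ g ∈ Gv 2, zq (q4 p) g = zq (q4 (p % 16 : ℕ)) g) ∨
      ∀ g ∈ Gv 2, zq (q4 p) g = zq II g * zq (q4 (p % 16 : ℕ)) g := by
  obtain ⟨m, hm⟩ := hp
  have c0 : ((p % 16 : ℕ) : ℤ) ≠ 0 := by omega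
  have p0 : (p : ℤ) ≠ 0 := by omega
  have hn : ((p : ℤ) * ((p % 16 : ℕ) : ℤ) ^ 3) % 16 = 1 := by
    have e : (p : ℤ) % 16 = ((p % 16 : ℕ) : ℤ) := by omega
    have l : p % 16 < 16 := Nat.mod_lt _ (by norm_num)
    have o : p % 16 % 2 = 1 := by omega
    rw [Int.mul_emod, e]
    generalize p % 16 = c at l o
    interval_cases c <;> first | rfl | omega
  obtain ⟨z, z1, z2⟩ := refine_four hn
  generalize ((p % 16 : ℕ) : ℤ) = c at *
  have n0 : (((p : ℤ) * c ^ 3 : ℤ) : Qb) ≠ 0 := by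
    exact_mod_cast mul_ne_zero (by exact_mod_cast p0) (pow_ne_zero 3 c0)
  have z0 : z ≠ 0 := by
    rintro rfl
    exact n0 (by rw [← z1]; norm_num)
  have hu : (q4 p * q4 c ^ 3 / z) ^ 4 = 1 := by
    rw [div_pow, z1, div_eq_one_iff_eq n0, mul_pow, ← pow_mul, mul_comm 3 4, pow_mul, q4_pow,
      q4_pow]
    push_cast
    rfl
  have e : ∀ g ∈ Gv 2, zq (q4 p) g = zq (q4 p * q4 c ^ 3 / z) g * zq (q4 c) g := fun g hg => by
    have a1 := zq_four c0 (q4_pow c) g
    have a2 : zq (q4 p * q4 c ^ 3 / z) g = zq (q4 p) g * zq (q4 c) g ^ 3 := by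
      simp only [zq, map_div₀, map_mul, map_pow, z2 g hg]
      rw [div_div_div_cancel_right₀ z0, div_pow, mul_div_mul_comm]
    rw [a2]
    linear_combination -zq (q4 p) g * a1
  rcases refine_zq hu with h | h
  · exact .inl fun g hg => by rw [e g hg, h, one_mul]
  · exact .inr fun g hg => by rw [e g hg, h]

/-- The fourth roots of odd primes fall into finitely many classes at two. -/
theorem exists_cl : ∃ cl : ℕ → Fin 32, ∀ p p' : ℕ, Odd p → Odd p' → cl p = cl p' →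
    ∀ g ∈ Gv 2, zq (q4 p) g = zq (q4 p') g := by
  refine ⟨fun p => ⟨p % 16 + if ∀ g ∈ Gv 2, zq (q4 p) g = zq (q4 (p % 16 : ℕ)) g then 0 else 16,
    by split_ifs <;> omega⟩, fun p p' hp hp' h g hg => ?_⟩
  have h1 := congrArg Fin.val h
  simp only at h1
  split_ifs at h1 with a b b
  · rw [a g hg, b g hg, show p % 16 = p' % 16 by omega]
  · omega
  · omega
  · rw [(refine_two hp).resolve_left a g hg, (refine_two hp').resolve_left b g hg,
      show p % 16 = p' % 16 by omega]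

/-- The sub-box with prescribed classes. -/
noncomputable abbrev refineBox (B : Box) {K : ℕ} (cl : ℕ → Fin K) (k : Fin B.r → Fin K) (θ : ℝ) :
    Box := { B with X := fun j => {p ∈ B.X j | cl p = k j}, θ := θ }

theorem refine_hyp {B : Box} {K c : ℕ} (cl : ℕ → Fin K) (k : Fin B.r → Fin K) {θ : ℝ}
    (h : B.Hyp c) (h0 : 0 < θ) (h1 : θ ≤ 1)
    (hc : (2 ^ ((B.r + B.k0 + 1) ^ 2) / θ) ^ c ≤ B.Y)
    (hb : ∀ j, θ * B.t j ≤ ({p ∈ B.X j | cl p = k j} : Finset ℕ).card) :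
    (refineBox B cl k θ).Hyp c := by
  have s : ∀ j, ∀ p ∈ (refineBox B cl k θ).X j, p ∈ B.X j := fun j p hp => (mem_filter.1 hp).1
  have y1 : (1 : ℝ) ≤ B.Y :=
    (one_le_pow₀ ((one_le_div h0).2 (h1.trans (one_le_pow₀ one_le_two)))).trans hc
  have ne : ∀ j, ((refineBox B cl k θ).X j).Nonempty := fun j => by
    have : (0 : ℝ) < θ * B.t j :=
      mul_pos h0 (one_pos.trans_le (y1.trans (Nat.cast_le.2 (h.hY j))))
    exact card_pos.1 (by exact_mod_cast this.trans_le (hb j))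
  have rp : ∀ j, (refineBox B cl k θ).rep j ∈ B.X j := fun j =>
    s j _ (Nat.sInf_mem (s := ((refineBox B cl k θ).X j : Set ℕ)) (ne j))
  refine ⟨⟨h.wf.sqf, fun j p hp => h.wf.prime j p (s j p hp),
    fun j p hp => h.wf.cop j p (s j p hp),
    fun i j p hp hp' => h.wf.disj i j p (s i p hp) (s j p hp'), ne,
    fun j p hp => (h.wf.mod8 j p (s j p hp)).trans (h.wf.mod8 j _ (rp j)).symm,
    fun j p hp q hq h2 => (h.wf.leg j p (s j p hp) q hq h2).trans
      (h.wf.leg j _ (rp j) q hq h2).symm⟩,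
    fun j p hp => h.rng j p (s j p hp), h0, h1, hb, h.hY, hc, h.hH, fun u hu => ?_, h.win, h.ord⟩
  have e : ∀ j, (refineBox B cl k θ).nu u j = B.nu u j := fun j =>
    sum_congr rfl fun g _ => congrArg _ (h.wf.pata_rep (rp j) g)
  simp only [e]
  exact h.b1 u hu

theorem refine_coord {r : ℕ} (X : Fin r → Finset ℕ) (j : Fin r) (S : Finset ℕ) {a : ℝ}
    (h : (S.card : ℝ) ≤ a * (X j).card) :
    (({x ∈ Fintype.piFinset X | x j ∈ S} : Finset _).card : ℝ) ≤
      a * (Fintype.piFinset X).card := by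
  have h1 : ({x ∈ Fintype.piFinset X | x j ∈ S} : Finset _) ⊆
      Fintype.piFinset (update X j S) := fun x hx => by
    obtain ⟨a1, a2⟩ := mem_filter.1 hx
    refine Fintype.mem_piFinset.2 fun i => ?_
    by_cases e : i = j
    · rw [e, update_self]; exact a2
    · rw [update_of_ne e]; exact Fintype.mem_piFinset.1 a1 i
  refine (Nat.cast_le.2 (card_le_card h1)).trans ?_
  rw [Fintype.card_piFinset, Fintype.card_piFinset, ← mul_prod_erase _ _ (mem_univ j),
    ← mul_prod_erase _ (fun i => (X i).card) (mem_univ j), update_self,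
    prod_congr rfl fun i hi => by rw [update_of_ne (ne_of_mem_erase hi)]]
  push_cast
  rw [← mul_assoc]
  exact mul_le_mul_of_nonneg_right h (by positivity)

theorem refine_small {K : ℕ} (cl : ℕ → Fin K) (X : Finset ℕ) {a : ℝ} (ha : 0 ≤ a) :
    (({p ∈ X | (({q ∈ X | cl q = cl p} : Finset ℕ).card : ℝ) < a} : Finset ℕ).card : ℝ) ≤
      K * a := by
  rw [card_eq_sum_card_fiberwise (f := cl) (t := univ) fun _ _ => mem_univ _]
  push_cast
  refine (sum_le_sum (g := fun _ => a) fun k _ => ?_).trans (by simp)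
  rcases ({q ∈ ({p ∈ X | (({q ∈ X | cl q = cl p} : Finset ℕ).card : ℝ) < a} : Finset ℕ) |
    cl q = k} : Finset ℕ).eq_empty_or_nonempty with e | ⟨p, hp⟩
  · rw [e]; simpa using ha
  · obtain ⟨a1, rfl⟩ := mem_filter.1 hp
    refine le_trans (Nat.cast_le.2 (card_le_card fun q hq => ?_)) (mem_filter.1 a1).2.le
    exact mem_filter.2 ⟨(mem_filter.1 (mem_filter.1 hq).1).1, (mem_filter.1 hq).2⟩

/-- A bound on all boxes with constant classes gives a bound on all boxes. -/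
theorem refine_main {K : ℕ} (cl : ℕ → Fin K) (c : ℕ) {ε : ℝ} (hε : 0 < ε) : ∃ c' : ℕ,
    ∀ bad : ℤ → Prop, (∀ B : Box, B.Hyp c → (∀ j, ∀ p ∈ B.X j, ∀ p' ∈ B.X j, cl p = cl p') →
      (({x ∈ B.pts | bad (B.DD x)} : Finset _).card : ℝ) ≤ ε * B.pts.card) →
    ∀ B : Box, B.Hyp c' → (({x ∈ B.pts | bad (B.DD x)} : Finset _).card : ℝ) ≤
      2 * ε * B.pts.card := by
  have K1 : (1 : ℝ) ≤ K := by exact_mod_cast (cl 0).pos
  obtain ⟨e, e0, e1, e2⟩ : ∃ e : ℝ, 0 < e ∧ e ≤ 1 ∧ e ≤ ε :=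
    ⟨min 1 ε, lt_min one_pos hε, min_le_left _ _, min_le_right _ _⟩
  obtain ⟨c1, hc1⟩ := pow_unbounded_of_one_lt (K / e) (one_lt_two (α := ℝ))
  refine ⟨(c1 + 2) * c, fun bad hbad B hB => ?_⟩
  have hB' : B.Hyp c := hB.mono (Nat.le_mul_of_pos_left _ (by omega))
  have r0 : (0 : ℝ) < (B.r : ℝ) + 1 := by positivity
  have t0 := hB.pos
  obtain ⟨θ, hθ⟩ : ∃ θ : ℝ, θ = B.θ * e / (K * (B.r + 1)) := ⟨_, rfl⟩
  have h0 : 0 < θ := by rw [hθ]; positivity
  have h1 : θ ≤ 1 := by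
    rw [hθ, div_le_one (by positivity)]
    exact (mul_le_one₀ hB.le1 e0.le e1).trans
      (one_le_mul_of_one_le_of_one_le K1 (by linarith [B.r.cast_nonneg (α := ℝ)]))
  have hc : (2 ^ ((B.r + B.k0 + 1) ^ 2) / θ) ^ c ≤ B.Y := by
    refine le_trans ?_ hB.hc
    rw [pow_mul]
    refine pow_le_pow_left₀ (by positivity) ?_ c
    have a1 : B.r + 1 ≤ (B.r + B.k0 + 1) ^ 2 :=
      le_trans (by omega) (Nat.le_self_pow two_ne_zero _)
    have a2 : (2 : ℝ) ^ (B.r + 1) ≤ 2 ^ ((B.r + B.k0 + 1) ^ 2) / B.θ :=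
      (pow_le_pow_right₀ one_le_two a1).trans (le_div_self (by positivity) t0 hB.le1)
    have a3 : (B.r : ℝ) + 1 ≤ 2 ^ (B.r + 1) := by
      exact_mod_cast (Nat.lt_two_pow_self (n := B.r + 1)).le
    have a4 : (2 : ℝ) ≤ 2 ^ (B.r + 1) := le_self_pow₀ one_le_two (by omega)
    have a5 : 2 ^ ((B.r + B.k0 + 1) ^ 2) / θ =
        K / e * (2 ^ ((B.r + B.k0 + 1) ^ 2) / B.θ * (B.r + 1)) := by
      rw [hθ]; field_simp
    rw [a5]
    generalize 2 ^ ((B.r + B.k0 + 1) ^ 2) / B.θ = A at a2 ⊢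
    have A0 : 0 ≤ A := by linarith
    rw [pow_add, sq]
    exact mul_le_mul (hc1.le.trans (pow_le_pow_left₀ zero_le_two (a4.trans a2) _))
      (mul_le_mul_of_nonneg_left (a3.trans a2) A0) (by positivity) (by positivity)
  let S : Fin B.r → Finset ℕ := fun j =>
    {p ∈ B.X j | (({q ∈ B.X j | cl q = cl p} : Finset ℕ).card : ℝ) < θ * B.t j}
  let G : Finset (Fin B.r → Fin K) :=
    {k | ∀ j, θ * B.t j ≤ ({p ∈ B.X j | cl p = k j} : Finset ℕ).card}
  have hS : ∀ j, (({x ∈ B.pts | x j ∈ S j} : Finset _).card : ℝ) ≤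
      e / (B.r + 1) * B.pts.card := fun j => by
    refine refine_coord B.X j (S j) ((refine_small cl (B.X j) (by positivity)).trans ?_)
    have : K * (θ * B.t j) = e / (B.r + 1) * (B.θ * B.t j) := by
      rw [hθ]; field_simp
    rw [this]
    exact mul_le_mul_of_nonneg_left (hB.big j) (by positivity)
  have hp : ∀ k, (refineBox B cl k θ).pts = {x ∈ B.pts | (fun j => cl (x j)) = k} := fun k => by
    ext x
    simp only [Box.pts, Fintype.mem_piFinset, mem_filter, funext_iff, forall_and]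
  have sub : ({x ∈ B.pts | bad (B.DD x)} : Finset _) ⊆
      (G.biUnion fun k => {x ∈ (refineBox B cl k θ).pts | bad ((refineBox B cl k θ).DD x)}) ∪
        univ.biUnion fun j => {x ∈ B.pts | x j ∈ S j} := fun x hx => by
    obtain ⟨a1, a2⟩ := mem_filter.1 hx
    by_cases a3 : (fun j => cl (x j)) ∈ G
    · refine mem_union_left _ (mem_biUnion.2 ⟨_, a3, mem_filter.2 ⟨?_, a2⟩⟩)
      rw [hp]
      exact mem_filter.2 ⟨a1, rfl⟩
    · obtain ⟨j, hj⟩ := not_forall.1 fun k => a3 (mem_filter.2 ⟨mem_univ _, k⟩)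
      exact mem_union_right _ (mem_biUnion.2 ⟨j, mem_univ _, mem_filter.2 ⟨a1, mem_filter.2
        ⟨Fintype.mem_piFinset.1 a1 j, not_le.1 hj⟩⟩⟩)
  have b1 : ∑ k ∈ G, (({x ∈ (refineBox B cl k θ).pts | bad ((refineBox B cl k θ).DD x)} :
      Finset _).card : ℝ) ≤ ε * B.pts.card := by
    refine (sum_le_sum fun k hk => hbad _ (refine_hyp cl k hB' h0 h1 hc (mem_filter.1 hk).2)
      fun j p a p' a' => (mem_filter.1 a).2.trans (mem_filter.1 a').2.symm).trans ?_
    rw [← mul_sum, card_eq_sum_card_fiberwise (s := B.pts) (f := fun x j => cl (x j)) (t := univ)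
      fun _ _ => mem_univ _]
    refine mul_le_mul_of_nonneg_left ?_ hε.le
    simp only [hp]
    exact_mod_cast sum_le_sum_of_subset (subset_univ G)
  have b2 : ∑ j, (({x ∈ B.pts | x j ∈ S j} : Finset _).card : ℝ) ≤ ε * B.pts.card := by
    refine (sum_le_sum fun j _ => hS j).trans ?_
    rw [sum_const, card_univ, Fintype.card_fin, nsmul_eq_mul, ← mul_assoc]
    refine mul_le_mul_of_nonneg_right (le_trans ?_ e2) (by positivity)
    rw [← mul_div_assoc, div_le_iff₀ r0]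
    linarith
  have b3 := (card_le_card sub).trans ((card_union_le _ _).trans
    (Nat.add_le_add card_biUnion_le card_biUnion_le))
  have b4 := (Nat.cast_le (α := ℝ)).2 b3
  push_cast at b4
  linarith

end Pool.Agent.Lib.MP_696deb_nt.Q4
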