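import Pool.Agent.Lib.MP_696deb_nt.VarChange

/-! The curve `y ^ 2 = x ^ 3 - x` over a field of characteristic zero, its automorphisms and the
endomorphism of degree two. -/

set_option autoImplicit false

open scoped Classical
open WeierstrassCurve WeierstrassCurve.Affine

namespace Pool.Agent.Lib.MP_696deb_nt.Q4

/-- The curve `y ^ 2 = x ^ 3 - x`. -/
def W1 (K : Type) [Field K] : WeierstrassCurve K := ⟨0, 0, 0, -1, 0⟩

abbrev P1 (K : Type) [Field K] := (W1 K).toAffine.Point

abbrev NS {K : Type} [Field K] (x y : K) : Prop := (W1 K).toAffine.Nonsingular x y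

variable {K L M : Type} [Field K] [Field L] [Field M]

theorem pt_ext {x y x' y' : K} {h : NS x y} {h' : NS x' y'} (hx : x = x') (hy : y = y') :
    Point.some x y h = .some x' y' h' := by
  subst hx hy
  rfl

theorem vc1 (f : K →+* L) {u : L} (hu : u ^ 4 = 1) : VC f (W1 K) (W1 L) u 0 0 0 := by
  refine ⟨?_, ?_, ?_, ?_, ?_, ?_⟩
  · rintro rfl
    simp at hu
  all_goals simp [W1, hu]

/-- The map `(x, y) ↦ (u ^ 2 f x, u ^ 3 f y)` for a fourth root of unity `u`. -/
noncomputable def vm (f : K →+* L) (u : L) : P1 K →+ P1 L :=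
  if h : u ^ 4 = 1 then (vc1 f h).hom else 0

theorem ns_zero : NS (0 : K) 0 := by
  simp [NS, W1, nonsingular_iff', equation_iff']

/-- The point `(0, 0)`. -/
def T1 (K : Type) [Field K] : P1 K := .some 0 0 ns_zero

/-- The endomorphism `1 + i`. -/
noncomputable def wm (I : K) : P1 K →+ P1 K := AddMonoidHom.id _ + vm (RingHom.id K) I

/-- The slope of the line through `(0, 0)`. -/
def sl : P1 K → K
  | .zero => 0
  | .some x y _ => y / x

variable {f : K →+* L} {u : L} {I : K} {x y : K}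

theorem gen_eq (h : NS x y) : y ^ 2 = x ^ 3 - x := by
  have := h.1
  simp only [W1, equation_iff', toAffine] at this
  linear_combination this

theorem ns_iff [CharZero K] : NS x y ↔ y ^ 2 = x ^ 3 - x := by
  refine ⟨gen_eq, fun h => ?_⟩
  simp only [NS, W1, nonsingular_iff', equation_iff', toAffine]
  refine ⟨by linear_combination h, ?_⟩
  by_contra hc
  push Not at hc
  obtain ⟨h1, h2⟩ := hc
  have hy : y = 0 := by linear_combination h2 / 2
  subst hy
  have hx : x = 0 := by linear_combination (3 * h - x * h1) / 2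
  subst hx
  simp at h1

theorem vm_some (hu : u ^ 4 = 1) (h : NS x y) :
    ∃ h', vm f u (.some x y h) = .some (u ^ 2 * f x) (u ^ 3 * f y) h' := by
  have h' := ((vc1 f hu).nonsingular x y).mpr h
  refine ⟨by simpa using h', ?_⟩
  rw [vm, dif_pos hu, VC.hom_some]
  exact pt_ext (by simp) (by simp)

theorem vm_comp {f' : L →+* M} {v : M} (hu : u ^ 4 = 1) (hv : v ^ 4 = 1) (P : P1 K) :
    vm f' v (vm f u P) = vm (f'.comp f) (v * f' u) P := by
  rcases P with _ | ⟨x, y, h⟩
  · rw [← Point.zero_def, map_zero, map_zero, map_zero]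
  obtain ⟨h1, e1⟩ := vm_some (f := f) hu h
  obtain ⟨h2, e2⟩ := vm_some (f := f') hv h1
  obtain ⟨h3, e3⟩ := vm_some (f := f'.comp f) (u := v * f' u)
    (by rw [mul_pow, ← map_pow, hu, hv, map_one, mul_one]) h
  rw [e1, e2, e3]
  exact pt_ext (by simp; ring) (by simp; ring)

theorem vm_one (P : P1 K) : vm (RingHom.id K) 1 P = P := by
  rcases P with _ | ⟨x, y, h⟩
  · rw [← Point.zero_def, map_zero]
  obtain ⟨h1, e1⟩ := vm_some (f := RingHom.id K) (one_pow 4) h
  rw [e1]
  exact pt_ext (by simp) (by simp)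

theorem gen_neg (h : NS x y) : ∃ h', -Point.some x y h = .some x (-y) h' := by
  have e : (W1 K).toAffine.negY x y = -y := by simp [W1, negY]
  exact ⟨e ▸ (nonsingular_neg x y).mpr h, (Point.neg_some h).trans (pt_ext rfl e)⟩

theorem vm_neg (hu : u ^ 4 = 1) (P : P1 K) : vm f (-u) P = -vm f u P := by
  rcases P with _ | ⟨x, y, h⟩
  · rw [← Point.zero_def, map_zero, map_zero, neg_zero]
  obtain ⟨h1, e1⟩ := vm_some (f := f) hu h
  obtain ⟨h2, e2⟩ := vm_some (f := f) (u := -u) (by linear_combination hu) h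
  obtain ⟨h3, e3⟩ := gen_neg h1
  rw [e1, e2, e3]
  exact pt_ext (by ring) (by ring)

theorem vm_inj (hu : u ^ 4 = 1) : Function.Injective (vm f u) := by
  rw [vm, dif_pos hu]
  exact VC.hom_injective _

theorem vm_T (hu : u ^ 4 = 1) : vm f u (T1 K) = T1 L := by
  obtain ⟨h1, e1⟩ := vm_some (f := f) hu ns_zero
  exact e1.trans (pt_ext (by simp) (by simp))

theorem T_ne : T1 K ≠ 0 := Point.some_ne_zero _

theorem T_add_T : T1 K + T1 K = 0 := by
  exact Point.add_self_of_Y_eq (by simp [W1, negY])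

theorem wm_apply (P : P1 K) : wm I P = P + vm (RingHom.id K) I P := rfl

theorem gen_add {x' y' l : K} (h : NS x y) (h' : NS x' y') (hx : x ≠ x')
    (hl : l * (x - x') = y - y') : ∃ h'', Point.some x y h + .some x' y' h' =
      .some (l ^ 2 - x - x') (-(l * (l ^ 2 - x - x' - x) + y)) h'' := by
  have e : (W1 K).toAffine.slope x x' y y' = l := by
    rw [slope_of_X_ne hx, div_eq_iff (sub_ne_zero.mpr hx), hl]
  have e1 : (W1 K).toAffine.addX x x' ((W1 K).toAffine.slope x x' y y') = l ^ 2 - x - x' := by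
    rw [e]
    simp [W1, addX]
  have e2 : (W1 K).toAffine.addY x x' y ((W1 K).toAffine.slope x x' y y') =
      -(l * (l ^ 2 - x - x' - x) + y) := by
    rw [e]
    simp [W1, addX, addY, negAddY, negY]
  have k := nonsingular_add h h' fun hxy => hx hxy.left
  exact ⟨by rwa [e1, e2] at k, (Point.add_of_X_ne hx).trans (pt_ext e1 e2)⟩

theorem gen_T (h : NS x y) (hx : x = 0) : Point.some x y h = T1 K := by
  have := gen_eq h
  subst hx
  exact pt_ext rfl (by simpa using this)

theorem gen_four (hI : I * I = -1) : I ^ 4 = 1 := by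
  linear_combination (I * I - 1) * hI

theorem gen_ne [CharZero K] (hI : I * I = -1) : 1 - I ≠ 0 := fun h => by
  have : (2 : K) = 0 := by linear_combination hI + (1 + I) * h
  exact two_ne_zero this

theorem gen_wm_T (hI : I * I = -1) : wm I (T1 K) = 0 := by
  rw [wm_apply, vm_T (gen_four hI), T_add_T]

theorem gen_wm [CharZero K] (hI : I * I = -1) (h : NS x y) (hx : x ≠ 0) :
    ∃ X Y h', wm I (.some x y h) = .some X Y h' ∧ (1 - I) ^ 2 * X = (y / x) ^ 2 := by
  obtain ⟨h1, e1⟩ := vm_some (f := RingHom.id K) (gen_four hI) h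
  obtain ⟨h2, e2⟩ := gen_add (l := (1 + I) * (y / x) / 2) h h1
    (fun e => hx (by
      rw [RingHom.id_apply] at e
      linear_combination (e + x * hI) / 2)) (by
      simp only [RingHom.id_apply]
      field_simp
      linear_combination (-y * (1 + I) + 2 * y * I) * hI)
  refine ⟨_, _, h2, by rw [wm_apply, e1, e2], ?_⟩
  rw [RingHom.id_apply]
  linear_combination ((y / x) ^ 2 * (I * I - 3) / 4 - (1 - I) ^ 2 * x) * hI

theorem wm_eq_zero [CharZero K] (hI : I * I = -1) {P : P1 K} : wm I P = 0 ↔ P = 0 ∨ P = T1 K := by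
  refine ⟨fun e => ?_, fun e => by rcases e with rfl | rfl; exacts [map_zero _, gen_wm_T hI]⟩
  rcases P with _ | ⟨x, y, h⟩
  · exact Or.inl rfl
  by_cases hx : x = 0
  · exact Or.inr (gen_T h hx)
  obtain ⟨X, Y, h', e', -⟩ := gen_wm hI h hx
  exact absurd (e'.symm.trans e) (Point.some_ne_zero _)

theorem wm_surj [CharZero K] [IsAlgClosed K] (hI : I * I = -1) (P : P1 K) : ∃ Q, wm I Q = P := by
  rcases P with _ | ⟨X, Y, h⟩
  · exact ⟨0, map_zero _⟩
  obtain ⟨s, hs⟩ := IsAlgClosed.exists_pow_nat_eq ((1 - I) ^ 2 * X) two_pos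
  obtain ⟨r, hr⟩ := IsAlgClosed.exists_pow_nat_eq (s ^ 4 + 4) two_pos
  obtain ⟨x, hx⟩ : ∃ x, x ^ 2 - s ^ 2 * x - 1 = 0 := ⟨(s ^ 2 + r) / 2, by linear_combination hr / 4⟩
  have hx0 : x ≠ 0 := fun e => by simp [e] at hx
  have hQ : NS x (s * x) := ns_iff.mpr (by linear_combination -x * hx)
  obtain ⟨X', Y', h', e, e'⟩ := gen_wm hI hQ hx0
  rw [mul_div_cancel_right₀ _ hx0, hs] at e'
  rcases Point.X_eq_iff.mp (mul_left_cancel₀ (pow_ne_zero 2 (gen_ne hI)) e') with k | k
  · exact ⟨_, e.trans k⟩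
  · exact ⟨-Point.some x _ hQ, by rw [map_neg, e, k, neg_neg]⟩

theorem sl_vm (hu : u ^ 4 = 1) (P : P1 K) : sl (vm f u P) = u * f (sl P) := by
  rcases P with _ | ⟨x, y, h⟩
  · rw [← Point.zero_def, map_zero, Point.zero_def, Point.zero_def]
    simp [sl]
  obtain ⟨h1, e1⟩ := vm_some (f := f) hu h
  rw [e1, sl, sl, map_div₀, pow_succ u 2, mul_assoc,
    mul_div_mul_left _ _ (pow_ne_zero 2 (vc1 f hu).hu), mul_div_assoc]

theorem sl_add_T [CharZero K] (P : P1 K) : sl (P + T1 K) = -sl P := by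
  rcases P with _ | ⟨x, y, h⟩
  · rw [← Point.zero_def, zero_add, Point.zero_def]
    simp [sl, T1]
  by_cases hx : x = 0
  · rw [gen_T h hx, T_add_T, Point.zero_def]
    simp [sl, T1]
  obtain ⟨h2, e2⟩ := gen_add (l := y / x) h ns_zero hx (by field_simp; ring)
  have e : (y / x) ^ 2 - x - 0 = -x⁻¹ := by
    field_simp
    linear_combination gen_eq h
  rw [T1, e2, sl, sl, e]
  field_simp
  ring

theorem wm_some [CharZero K] (hI : I * I = -1) {Q : P1 K} {h : NS x y} (e : wm I Q = .some x y h) :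
    (1 - I) ^ 2 * x = sl Q ^ 2 := by
  rcases Q with _ | ⟨a, b, k⟩
  · exact absurd (e.symm.trans (map_zero _)) (Point.some_ne_zero _)
  by_cases ha : a = 0
  · rw [gen_T k ha, gen_wm_T hI] at e
    exact absurd e.symm (Point.some_ne_zero _)
  obtain ⟨X, Y, h', e', k'⟩ := gen_wm hI k ha
  rw [e'] at e
  rw [← (Point.some.inj e).1, k', sl]

theorem wm_eq_T [CharZero K] (hI : I * I = -1) {Q : P1 K} (e : wm I Q = T1 K) :
    ∃ (x : K) (h : NS x 0), x * x = 1 ∧ Q = .some x 0 h := by
  have k := wm_some hI e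
  rcases Q with _ | ⟨a, b, h⟩
  · exact absurd (e.symm.trans (map_zero _)) T_ne
  have ha : a ≠ 0 := fun ha => by
    rw [gen_T h ha, gen_wm_T hI] at e
    exact T_ne e.symm
  obtain rfl : b = 0 := by simpa [sl, ha] using k.symm
  exact ⟨a, h, mul_left_cancel₀ ha (by linear_combination -gen_eq h), rfl⟩

theorem wm_vm [CharZero L] {I' : L} (hI : I * I = -1) (hI' : I' * I' = -1) (hu : u ^ 4 = 1)
    (P : P1 K) : wm I' (vm f u P) = vm f (u * (f (1 - I) / (1 - I'))) (wm I P) := by
  have hf : f I * f I = I' * I' := by rw [← map_mul, hI, hI', map_neg, map_one]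
  have h1 := gen_ne hI'
  rw [wm_apply, wm_apply, map_add, vm_comp hu (gen_four hI'), map_sub, map_one,
    RingHom.id_comp, RingHom.id_apply]
  rcases mul_self_eq_mul_self_iff.mp hf with e | e
  · rw [e, div_self h1, mul_one, vm_comp (gen_four hI) hu, RingHom.comp_id, e, mul_comm]
  · have e1 : (1 - f I) / (1 - I') = I' := by
      rw [div_eq_iff h1, e]
      linear_combination hI'
    rw [e1, vm_comp (gen_four hI) (by rw [mul_pow, hu, gen_four hI', mul_one]), RingHom.comp_id,
      e, add_comm, mul_comm I', show u * I' * -I' = u by linear_combination -u * hI']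

end Pool.Agent.Lib.MP_696deb_nt.Q4
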