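import Pool.Agent.Lib.MP_696deb_nt.Q4.Gen
import Pool.Agent.Lib.MP_696deb_nt.Sm.Hilb

/-! The points over the algebraic numbers as a module over the Gaussian integers, the twisted
Galois actions, local conditions. -/

set_option autoImplicit false

open scoped Classical
open WeierstrassCurve WeierstrassCurve.Affine

namespace Pool.Agent.Lib.MP_696deb_nt.Q4

open Sm

abbrev O := GaussianInt

abbrev A := P1 Qb

/-- A square root of minus one. -/
noncomputable def II : Qb := rt ((-1 : ℤ) : Qb)

theorem II_mul : II * II = -1 := by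
  rw [II, rt_mul_self]; simp

theorem II_four : II ^ 4 = 1 := by
  rw [show II ^ 4 = (II * II) * (II * II) by ring, II_mul]; norm_num

/-- The automorphism of order four. -/
noncomputable def JJ : A →+ A := vm (RingHom.id Qb) II

theorem JJ_JJ (P : A) : JJ (JJ P) = -P := by
  rw [JJ, vm_comp II_four II_four, RingHom.id_apply, II_mul, vm_neg (by norm_num)]
  exact congrArg _ (vm_one P)

noncomputable instance : SMul O A := ⟨fun z P => z.re • P + z.im • JJ P⟩

theorem smul_def (z : O) (P : A) : z • P = z.re • P + z.im • JJ P := rfl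

noncomputable instance : Module O A where
  one_smul P := by simp [smul_def]
  mul_smul z z' P := by
    simp only [smul_def, Zsqrtd.re_mul, Zsqrtd.im_mul, map_add, map_zsmul, JJ_JJ]
    module
  smul_zero z := by simp [smul_def]
  smul_add z P Q := by
    simp only [smul_def, map_add]
    module
  add_smul z z' P := by
    simp only [smul_def, Zsqrtd.re_add, Zsqrtd.im_add]
    module
  zero_smul P := by simp [smul_def]

/-- The prime above two. -/
def w : O := ⟨1, 1⟩

/-- The imaginary unit. -/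
def ii : O := ⟨0, 1⟩

noncomputable abbrev T : A := T1 Qb

/-- The unit that corresponds to a fourth root of unity. -/
noncomputable def un (u : Qb) : O :=
  if u = 1 then 1 else if u = -1 then -1 else if u = II then ii else -ii

/-- The quotient `(un u - 1) / w`. -/
noncomputable def uu (u : Qb) : O :=
  if u = 1 then 0 else if u = -1 then ⟨-1, 1⟩ else if u = II then ii else -1

/-- The reduction modulo `w`. -/
def red (z : O) : F2 := (z.re : F2) + (z.im : F2)

/-- The line through the point of order two. -/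
noncomputable def kT : F2 →+ A :=
  AddMonoidHom.mk' (fun t => t.val • T) fun a b => by
    have h := T_add_T (K := Qb)
    rcases F2_cases a with rfl | rfl <;> rcases F2_cases b with rfl | rfl
    · simp
    · simp
    · simp
    · rw [show (1 + 1 : F2) = 0 by decide, ZMod.val_zero, ZMod.val_one, zero_nsmul, one_nsmul, h]

/-- The homomorphism to the kernel of `w` attached to an integer. -/
noncomputable def kum (d : ℤ) (g : GQ) : A := kT (chi d g)

/-- The Kummer cocycle of `ρ`. -/
noncomputable def zq (ρ : Qb) (g : GQ) : Qb := g ρ / ρ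

/-- A fourth root of a nonzero integer. -/
@[ext] structure Tw where
  ρ : Qb
  N : ℤ
  ne : N ≠ 0
  pw : ρ ^ 4 = N

theorem wb_four : (1 - II) ^ 4 = -4 := by
  have h := II_mul
  linear_combination (II ^ 2 - 4 * II + 5) * h

namespace Tw

variable (t : Tw)

/-- The twisted Galois action. -/
noncomputable def tw (g : GQ) : A →+ A := vm (g : Qb →+* Qb) (zq t.ρ g)

/-- The target of the `k`-th power of `w`. -/
noncomputable def it (k : ℕ) : Tw where
  ρ := t.ρ * (1 - II) ^ k
  N := (-4) ^ k * t.N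
  ne := mul_ne_zero (pow_ne_zero _ (by norm_num)) t.ne
  pw := by
    rw [mul_pow, t.pw, ← pow_mul, mul_comm k, pow_mul, wb_four]
    push_cast
    ring

/-- The coboundary of a point. -/
noncomputable def cob (Q : A) (g : GQ) : A := t.tw g Q - Q

/-- The local condition at `v`; the index `0` stands for the real place. -/
def Loc (v : ℕ) (c : GQ → A) : Prop := ∃ Q : A, ∀ g ∈ Gv v, c g = t.cob Q g

/-- The local condition with a torsion point. -/
def LocT (v : ℕ) (c : GQ → A) : Prop :=
  ∃ Q : A, (∃ k : ℕ, w ^ k • Q = 0) ∧ ∀ g ∈ Gv v, c g = t.cob Q g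

/-- The odd primes divide `N` at most once. -/
def Sq : Prop := ∀ q : ℕ, q.Prime → q ≠ 2 → (q : ℤ) ∣ t.N → padicValInt q t.N = 1

end Tw

theorem ell_ne : (-1 : Qb) ≠ 1 ∧ II ≠ 1 ∧ II ≠ -1 ∧ -II ≠ 1 ∧ -II ≠ -1 ∧ -II ≠ II := by
  have h := II_mul
  refine ⟨by norm_num, fun e => ?_, fun e => ?_, fun e => ?_, fun e => ?_, fun e => ?_⟩
  · rw [e] at h; norm_num at h
  · rw [e] at h; norm_num at h
  · rw [neg_eq_iff_eq_neg.1 e] at h; norm_num at h
  · rw [neg_inj.1 e] at h; norm_num at h
  · have : (2 : Qb) = 0 := by linear_combination II * e + 2 * h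
    norm_num at this

theorem ell_un : un (-1) = -1 ∧ un II = ii ∧ un (-II) = -ii := by
  obtain ⟨a, b, c, d, e, f⟩ := ell_ne
  simp only [un, a, b, c, d, e, f, if_true, if_false, and_self]

theorem ell_uu : uu (-1) = ⟨-1, 1⟩ ∧ uu II = ii ∧ uu (-II) = -1 := by
  obtain ⟨a, b, c, d, e, f⟩ := ell_ne
  simp only [uu, a, b, c, d, e, f, if_true, if_false, and_self]

theorem ell_root2 {u : Qb} (h : u * u = -1) : u = II ∨ u = -II :=
  mul_self_eq_mul_self_iff.1 (h.trans II_mul.symm)

theorem ell_root {u : Qb} (h : u ^ 4 = 1) : u = 1 ∨ u = -1 ∨ u = II ∨ u = -II := by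
  rcases mul_self_eq_one_iff.1 (show (u * u) * (u * u) = 1 by linear_combination h) with e | e
  · exact (mul_self_eq_one_iff.1 e).imp_right Or.inl
  · exact Or.inr (Or.inr (ell_root2 e))

theorem w_smul (P : A) : w • P = wm II P := by
  simp [smul_def, w, wm_apply, JJ]

theorem ii_smul (P : A) : ii • P = JJ P := by
  simp [smul_def, ii]

theorem two_eq : (2 : O) = -ii * w ^ 2 := by decide

theorem isUnit_ii : IsUnit ii := IsUnit.of_mul_eq_one (-ii) (by decide)

theorem un_eq (u : Qb) : un u = 1 + w * uu u := by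
  unfold un uu
  split_ifs <;> decide

theorem un_one : un 1 = 1 := if_pos rfl

theorem uu_one : uu 1 = 0 := if_pos rfl

theorem un_mul {u v : Qb} (hu : u ^ 4 = 1) (hv : v ^ 4 = 1) : un (u * v) = un u * un v := by
  rcases ell_root hu with rfl | rfl | rfl | rfl <;> rcases ell_root hv with rfl | rfl | rfl | rfl <;>
    simp only [mul_one, one_mul, mul_neg, neg_mul, neg_neg, II_mul, un_one, ell_un.1, ell_un.2.1,
      ell_un.2.2] <;> decide

theorem un_prod {ι : Type} (s : Finset ι) {u : ι → Qb} (hu : ∀ i ∈ s, u i ^ 4 = 1) :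
    un (∏ i ∈ s, u i) = ∏ i ∈ s, un (u i) := by
  induction s using Finset.induction_on with
  | empty => simp [un_one]
  | insert a s ha ih =>
    rw [Finset.prod_insert ha, Finset.prod_insert ha, un_mul (hu a (Finset.mem_insert_self _ _)),
      ih fun i hi => hu i (Finset.mem_insert_of_mem hi)]
    rw [← Finset.prod_pow]
    exact Finset.prod_eq_one fun i hi => hu i (Finset.mem_insert_of_mem hi)

theorem un_sn (b : F2) : un (sn b : Qb) = (sn b : O) := by
  rcases F2_cases b with rfl | rfl <;> simp [sn_zero, sn_one, un_one, ell_un.1]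

theorem isUnit_un (u : Qb) : IsUnit (un u) := by
  unfold un
  split_ifs
  exacts [isUnit_one, isUnit_one.neg, isUnit_ii, isUnit_ii.neg]

theorem isUnit_uu {u : Qb} (h : u * u = -1) : IsUnit (uu u) := by
  rcases ell_root2 h with rfl | rfl
  · exact ell_uu.2.1 ▸ isUnit_ii
  · exact ell_uu.2.2 ▸ isUnit_one.neg

theorem red_uu {u : Qb} {b : F2} (h : u * u = (sn b : Qb)) : red (uu u) = b := by
  rcases F2_cases b with rfl | rfl
  · rcases mul_self_eq_one_iff.1 (show u * u = 1 by simpa [sn_zero] using h) with rfl | rfl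
    · rw [uu_one]; decide
    · rw [ell_uu.1]; decide
  · rcases ell_root2 (show u * u = -1 by simpa [sn_one] using h) with rfl | rfl
    · rw [ell_uu.2.1]; decide
    · rw [ell_uu.2.2]; decide

theorem red_mul (z z' : O) : red (z * z') = red z * red z' := by
  simp only [red, Zsqrtd.re_mul, Zsqrtd.im_mul]
  push_cast
  generalize (z.re : F2) = a, (z.im : F2) = b, (z'.re : F2) = c, (z'.im : F2) = d
  revert a b c d
  decide

theorem red_one : red 1 = 1 := by decide

theorem red_prod {ι : Type} (s : Finset ι) (z : ι → O) : red (∏ i ∈ s, z i) = ∏ i ∈ s, red (z i) := by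
  induction s using Finset.induction_on with
  | empty => simpa using red_one
  | insert a s ha ih => rw [Finset.prod_insert ha, Finset.prod_insert ha, red_mul, ih]

theorem vm_un {u v : Qb} (hu : u ^ 4 = 1) (hv : v ^ 4 = 1) (f : Qb →+* Qb) (P : A) :
    vm f (u * v) P = un u • vm f v P := by
  have e : vm (RingHom.id Qb) u (vm f v P) = vm f (u * v) P := vm_comp hv hu P
  rw [← e]
  rcases ell_root hu with rfl | rfl | rfl | rfl
  · rw [un_one, one_smul, vm_one]
  · rw [ell_un.1, neg_one_smul, vm_neg (one_pow 4), vm_one]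
  · rw [ell_un.2.1, ii_smul, JJ]
  · rw [ell_un.2.2, neg_smul, ii_smul, JJ, vm_neg II_four]

theorem smul_kT (z : O) (b : F2) : z • kT b = kT (red z * b) := by
  have h1 : JJ (kT b) = kT b := by
    show JJ (b.val • T) = b.val • T
    rw [map_nsmul, JJ, vm_T II_four]
  rw [smul_def, h1, ← map_zsmul, ← map_zsmul, ← map_add, red, add_mul, zsmul_eq_mul, zsmul_eq_mul]

theorem w_kT (b : F2) : w • kT b = 0 := by
  rw [smul_kT, show red w = 0 by decide, zero_mul, map_zero]

theorem kT_one : kT 1 = T := by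
  show (1 : F2).val • T = T
  rw [ZMod.val_one, one_nsmul]

theorem kT_inj : Function.Injective kT := by
  refine (injective_iff_map_eq_zero _).2 fun b h => (F2_cases b).resolve_right ?_
  rintro rfl
  exact T_ne (kT_one.symm.trans h)

theorem exists_kT {P : A} (h : w • P = 0) : ∃ b, P = kT b := by
  rcases (wm_eq_zero II_mul).1 (w_smul P ▸ h) with rfl | rfl
  exacts [⟨0, (map_zero kT).symm⟩, ⟨1, kT_one.symm⟩]

/-- Units act trivially on the kernel of `w`. -/
theorem unit_smul {z : O} (hz : IsUnit z) {P : A} (h : w • P = 0) : z • P = P := by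
  obtain ⟨b, rfl⟩ := exists_kT h
  obtain ⟨z', e⟩ := hz.exists_right_inv
  have e1 := red_mul z z'
  rw [e, red_one] at e1
  rcases F2_cases (red z) with e2 | e2
  · rw [e2, zero_mul] at e1
    exact absurd e1 (by decide)
  · rw [smul_kT, e2, one_mul]

theorem exists_root (k : ℕ) (P : A) : ∃ Q : A, w ^ k • Q = P := by
  induction k with
  | zero => exact ⟨P, by simp⟩
  | succ k ih =>
    obtain ⟨Q, rfl⟩ := ih
    obtain ⟨R, rfl⟩ := wm_surj II_mul Q
    exact ⟨R, by rw [pow_succ, mul_smul, w_smul]⟩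

theorem finite_tors (k : ℕ) : {P : A | w ^ k • P = 0}.Finite := by
  induction k with
  | zero => simp
  | succ k ih =>
    refine Set.Finite.of_finite_fibers (fun P => w • P) (ih.subset ?_) ?_
    · rintro _ ⟨P, hP, rfl⟩
      simpa only [Set.mem_ofPred_eq, pow_succ, mul_smul] using hP
    · rintro _ ⟨P, -, rfl⟩
      refine (Set.finite_range fun b => P + kT b).subset fun Q hQ => ?_
      obtain ⟨b, hb⟩ := exists_kT (P := Q - P) (by rw [smul_sub, sub_eq_zero]; exact hQ.2)
      exact ⟨b, by simp [← hb]⟩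

theorem two_pow_smul {k : ℕ} {P : A} (h : w ^ k • P = 0) : 2 ^ k • P = 0 := by
  have e : (2 : O) ^ k • P = 0 := by
    rw [two_eq, sq, ← mul_assoc, mul_pow, mul_smul, h, smul_zero]
  rw [← Nat.cast_smul_eq_nsmul O]
  exact_mod_cast e

theorem two_pow_iff (k : ℕ) (P : A) : 2 ^ k • P = 0 ↔ w ^ (2 * k) • P = 0 := by
  rw [← Nat.cast_smul_eq_nsmul O, Nat.cast_pow, Nat.cast_ofNat, two_eq, mul_pow, mul_smul,
    (isUnit_ii.neg.pow k).smul_eq_zero, pow_mul]

theorem zq_mul {ρ ρ' : Qb} (g : GQ) : zq (ρ * ρ') g = zq ρ g * zq ρ' g := by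
  rw [zq, map_mul, mul_div_mul_comm, zq, zq]

theorem zq_prod {ι : Type} (s : Finset ι) (ρ : ι → Qb) (g : GQ) :
    zq (∏ i ∈ s, ρ i) g = ∏ i ∈ s, zq (ρ i) g := by
  simp only [zq, map_prod, Finset.prod_div_distrib]

theorem zq_four {ρ : Qb} {N : ℤ} (hN : N ≠ 0) (h : ρ ^ 4 = N) (g : GQ) : zq ρ g ^ 4 = 1 := by
  rw [zq, div_pow, ← map_pow, h, map_intCast, div_self (Int.cast_ne_zero.2 hN)]

theorem zq_sq {ρ : Qb} {N : ℤ} (hN : N ≠ 0) (h : ρ ^ 4 = N) (g : GQ) :
    zq ρ g * zq ρ g = (sn (chi N g) : Qb) := by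
  have h0 : ρ ≠ 0 := by
    rintro rfl
    exact hN (by exact_mod_cast (show ((N : ℤ) : Qb) = 0 by rw [← h]; simp))
  rw [← zq_mul, zq, chB_spec (w := N) (by linear_combination h) (map_intCast g N), chi,
    mul_div_cancel_right₀ _ (mul_ne_zero h0 h0)]

theorem kum_mul {a b : ℤ} (ha : a ≠ 0) (hb : b ≠ 0) : kum (a * b) = kum a + kum b := by
  funext g
  rw [Pi.add_apply, kum, chi_mul ha hb, map_add, kum, kum]

theorem kum_hom (a : ℤ) (g h : GQ) : kum a (g * h) = kum a g + kum a h := by
  rw [kum, chi_mul_g, map_add, kum, kum]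

theorem w_kum (a : ℤ) (g : GQ) : w • kum a g = 0 := w_kT _

theorem lc_kum (a : ℤ) : LC (kum a) := (lc_chi a).comp kT

/-- Kummer theory for homomorphisms to the kernel of `w`. -/
theorem exists_kum {c : GQ → A} (h2 : ∀ g, w • c g = 0) (hm : ∀ g h, c (g * h) = c g + c h)
    (hl : LC c) : ∃ d : ℤ, Squarefree d ∧ c = kum d := by
  have e : ∀ g, c g = kT (if c g = 0 then 0 else 1) := fun g => by
    obtain ⟨b, hb⟩ := exists_kT (h2 g)
    split_ifs with h
    · rw [h, map_zero]
    · rcases F2_cases b with rfl | rfl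
      · exact absurd (hb.trans (map_zero _)) h
      · exact hb
  obtain ⟨d, h1, h3⟩ := kummer (h := fun g => if c g = 0 then 0 else 1)
    (fun g g' => kT_inj (by rw [map_add, ← e, ← e, ← e, hm]))
    (hl.comp fun P => if P = 0 then (0 : F2) else 1)
  exact ⟨d, h1, funext fun g => by rw [kum, ← h3, ← e]⟩

end Pool.Agent.Lib.MP_696deb_nt.Q4
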