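import Pool.Agent.Lib.MP_696deb_nt.Q4.Ell

/-! The twisted actions, coboundaries and the local conditions. -/

set_option autoImplicit false

open scoped Classical
open WeierstrassCurve WeierstrassCurve.Affine

namespace Pool.Agent.Lib.MP_696deb_nt.Q4

open Sm

theorem ellT_not_dvd {q : ℕ} (hq : q.Prime) (h2 : q ≠ 2) (k : ℕ) : ¬ (q : ℤ) ∣ (-4) ^ k := by
  intro h
  have hp := Nat.prime_iff_prime_int.1 hq
  have h4 : (q : ℤ) ∣ 2 ^ 2 := (dvd_neg (b := 4)).1 (hp.dvd_of_dvd_pow h)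
  exact h2 ((Nat.prime_dvd_prime_iff_eq hq Nat.prime_two).1
    (by exact_mod_cast hp.dvd_of_dvd_pow h4))

theorem ellT_II_ne : II ≠ 0 := fun h => by simpa [h] using II_mul

namespace Tw

variable (t : Tw) {t' : Tw}

theorem ρ_ne : t.ρ ≠ 0 := by
  intro h
  have e := t.pw
  rw [h, zero_pow (by norm_num)] at e
  exact t.ne (by exact_mod_cast e.symm)

theorem four (g : GQ) : zq t.ρ g ^ 4 = 1 := zq_four t.ne t.pw g

theorem it_zero : t.it 0 = t := by
  ext <;> simp [it]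

theorem it_it (j k : ℕ) : (t.it j).it k = t.it (j + k) := by
  ext <;> simp only [it] <;> ring

theorem dvd_it {q : ℕ} (hq : q.Prime) (h2 : q ≠ 2) (k : ℕ) :
    (q : ℤ) ∣ (t.it k).N ↔ (q : ℤ) ∣ t.N := by
  have hp := Nat.prime_iff_prime_int.1 hq
  refine ⟨fun h => (hp.dvd_or_dvd h).resolve_left (ellT_not_dvd hq h2 k), fun h => h.mul_left _⟩

theorem Sq.it {t : Tw} (h : t.Sq) (k : ℕ) : (t.it k).Sq := by
  intro q hq h2 hd
  have := Fact.mk hq
  change padicValInt q ((-4) ^ k * t.N) = 1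
  rw [padicValInt.mul (pow_ne_zero _ (by norm_num)) t.ne,
    padicValInt.eq_zero_of_not_dvd (ellT_not_dvd hq h2 k), zero_add]
  exact h q hq h2 ((t.dvd_it hq h2 k).1 hd)

theorem chi_it (k : ℕ) (g : GQ) : chi (t.it k).N g = chi t.N g + (k : F2) * chi (-1) g := by
  change chi ((-4) ^ k * t.N) g = _
  rw [chi_mul (pow_ne_zero _ (by norm_num)) t.ne, chi_pow (by norm_num),
    show (-4 : ℤ) = -1 * (2 * 2) by norm_num, chi_mul (by norm_num) (by norm_num), chi_sq, add_zero,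
    add_comm]

theorem tw_mul (g h : GQ) (P : A) : t.tw (g * h) P = t.tw g (t.tw h P) := by
  rw [tw, tw, tw, vm_comp (t.four h) (t.four g)]
  have e : zq t.ρ (g * h) = zq t.ρ g * (g : Qb →+* Qb) (zq t.ρ h) := by
    have n : g t.ρ ≠ 0 := (map_ne_zero g).2 t.ρ_ne
    simp only [zq, RingHom.coe_coe, map_div₀, AlgEquiv.mul_apply]
    field_simp
  rw [e]
  rfl

theorem tw_one (P : A) : t.tw 1 P = P := by
  have e : zq t.ρ 1 = 1 := div_self t.ρ_ne
  rw [tw, e]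
  exact vm_one P

theorem tw_ker (g : GQ) {P : A} (h : w • P = 0) : t.tw g P = P := by
  obtain ⟨b, rfl⟩ := exists_kT h
  rcases F2_cases b with rfl | rfl
  · rw [map_zero, map_zero]
  · rw [kT_one]
    exact vm_T (t.four g)

theorem ellT_w_tw (g : GQ) (P : A) : w • t.tw g P = (t.it 1).tw g (w • P) := by
  rw [w_smul, w_smul, tw, wm_vm II_mul II_mul (t.four g), tw]
  change _ = vm _ (zq (t.ρ * (1 - II) ^ 1) g) _
  rw [pow_one, zq_mul]
  rfl

theorem w_tw (k : ℕ) (g : GQ) (P : A) : w ^ k • t.tw g P = (t.it k).tw g (w ^ k • P) := by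
  induction k with
  | zero => rw [pow_zero, one_smul, one_smul, it_zero]
  | succ k ih => rw [pow_succ', mul_smul, mul_smul, ih, ellT_w_tw, it_it]

/-- Two twisted actions differ by a unit. -/
theorem tw_rel {t : Tw} {g : GQ} {u : Qb} (hu : u ^ 4 = 1) (h : zq t'.ρ g = u * zq t.ρ g) (P : A) :
    t'.tw g P = un u • t.tw g P := by
  rw [tw, tw, h, vm_un hu (t.four g)]

theorem tw_congr {t : Tw} {g : GQ} (h : zq t'.ρ g = zq t.ρ g) : t'.tw g = t.tw g := by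
  rw [tw, tw, h]

/-- The automorphism `ii` changes the fourth root by a fourth root of unity. -/
theorem ii_tw {t : Tw} {g : GQ} (h : zq t'.ρ g = zq t.ρ g * zq II g) (P : A) :
    ii • t.tw g P = t'.tw g (ii • P) := by
  have e : II * zq t.ρ g = zq t'.ρ g * g II := by
    rw [h, zq.eq_1 II, mul_assoc, div_mul_eq_mul_div, ← map_mul, II_mul, map_neg, map_one,
      mul_comm, div_eq_of_eq_mul ellT_II_ne II_mul.symm]
  rw [ii_smul, ii_smul, tw, tw, JJ, vm_comp (t.four g) II_four, vm_comp II_four (t'.four g),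
    RingHom.id_apply, e]
  rfl

theorem zq_it_two (g : GQ) : zq (t.it 2).ρ g = zq t.ρ g * zq II g ∧
    zq t.ρ g = zq (t.it 2).ρ g * zq II g := by
  have e : zq (t.it 2).ρ g = zq t.ρ g * zq II g := by
    have e2 : (1 - II) ^ 2 = -2 * II := by linear_combination II_mul
    change zq (t.ρ * (1 - II) ^ 2) g = _
    rw [e2, zq_mul, zq_mul, zq.eq_1 (-2), map_neg, map_ofNat, div_self (by norm_num), one_mul]
  refine ⟨e, ?_⟩
  rw [e, mul_assoc, ← zq_mul, II_mul, zq.eq_1 (-1), map_neg, map_one, div_self (by norm_num),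
    mul_one]

/-- Two fourth roots of the same number. -/
theorem zq_same {t : Tw} (h : t'.N = t.N) :
    (∀ g, zq t'.ρ g = zq t.ρ g) ∨ ∀ g, zq t'.ρ g = zq t.ρ g * zq II g := by
  have e : (t'.ρ - t.ρ) * (t'.ρ - -1 * t.ρ) * ((t'.ρ - t.ρ * II) * (t'.ρ - -1 * (t.ρ * II))) = 0 := by
    have e1 := t.pw
    have e2 := t'.pw
    rw [h] at e2
    linear_combination e2 - e1 - t.ρ ^ 2 * (t'.ρ ^ 2 - t.ρ ^ 2) * II_mul
  have n : ∀ g : GQ, zq (-1) g = 1 := fun g => by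
    rw [zq, map_neg, map_one, div_self (by norm_num)]
  simp only [mul_eq_zero, sub_eq_zero] at e
  rcases e with (e | e) | e | e
  · exact .inl fun g => by rw [e]
  · exact .inl fun g => by rw [e, zq_mul, n, one_mul]
  · exact .inr fun g => by rw [e, zq_mul]
  · exact .inr fun g => by rw [e, zq_mul, n, one_mul, zq_mul]

theorem lc_cob (Q : A) : LC (t.cob Q) := by
  refine B2.Sm.comp (f := fun g => t.tw g Q) ?_ fun P => P - Q
  rcases Q with _ | ⟨x, y, hP⟩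
  · exact (B2.Sm.const (0 : A)).congr fun g _ => (map_zero _).symm
  · obtain ⟨U, h1, h2, h3⟩ := ((B2.sm_apply (H := ⊤) x).comp₂ (B2.sm_apply y) Prod.mk).comp₂
      (B2.sm_apply t.ρ) Prod.mk
    refine ⟨U, h1, h2, fun g hg k hk e => ?_⟩
    obtain ⟨k1, e1⟩ := vm_some (f := (g : Qb →+* Qb)) (t.four g) hP
    obtain ⟨k2, e2⟩ := vm_some (f := (k : Qb →+* Qb)) (t.four k) hP
    obtain ⟨e3, e4⟩ := Prod.mk.inj (h3 g hg k hk e)
    obtain ⟨e5, e6⟩ := Prod.mk.inj e3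
    refine e1.trans ((pt_ext ?_ ?_).trans e2.symm) <;>
      simp only [zq, RingHom.coe_coe, e4, e5, e6]

theorem cob_add (P Q : A) : t.cob (P + Q) = t.cob P + t.cob Q := by
  funext g
  simp only [cob, map_add, Pi.add_apply]
  abel

theorem cob_zsmul (k : ℤ) (Q : A) : t.cob (k • Q) = k • t.cob Q := by
  funext g
  simp only [cob, map_zsmul, Pi.smul_apply, smul_sub]

theorem cob_sum {ι : Type} (s : Finset ι) (Q : ι → A) :
    t.cob (∑ i ∈ s, Q i) = ∑ i ∈ s, t.cob (Q i) := by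
  funext g
  simp only [cob, map_sum, Finset.sum_apply, Finset.sum_sub_distrib]

theorem w_cob (k : ℕ) (Q : A) (g : GQ) : w ^ k • t.cob Q g = (t.it k).cob (w ^ k • Q) g := by
  rw [cob, cob, smul_sub, w_tw]

theorem cob_mul (Q : A) (g h : GQ) : t.cob Q (g * h) = t.cob Q g + t.tw g (t.cob Q h) := by
  rw [cob, cob, cob, map_sub, tw_mul]
  abel

/-- The coboundary of a point above the point of order two. -/
theorem cob_half {Q : A} {b : F2} (h : w • Q = kT b) (g : GQ) : t.cob Q g = kT (b * chi t.N g) := by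
  rcases F2_cases b with rfl | rfl
  · rw [map_zero] at h
    rw [cob, t.tw_ker g h, sub_self, zero_mul, map_zero]
  have h1 : w • t.cob Q g = 0 := by
    have e := t.w_cob 1 Q g
    rw [pow_one, h, cob.eq_1 (t.it 1), tw_ker _ g (w_kT 1), sub_self] at e
    exact e
  obtain ⟨b, hb⟩ := exists_kT h1
  rw [w_smul, kT_one] at h
  obtain ⟨x, hx, e, rfl⟩ := wm_eq_T II_mul h
  obtain ⟨h', e'⟩ := vm_some (f := (g : Qb →+* Qb)) (t.four g) hx
  have gx : g x = x := by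
    rcases mul_self_eq_one_iff.1 e with rfl | rfl <;> simp
  have x0 : x ≠ 0 := by
    rintro rfl
    simp at e
  have key : t.cob (.some x 0 hx) g = 0 ↔ chi t.N g = 0 := by
    rw [cob, sub_eq_zero, tw, e', Point.some.injEq, sq, zq_sq t.ne t.pw, map_zero, mul_zero,
      RingHom.coe_coe, gx, mul_eq_right₀ x0]
    exact ⟨fun l => sn_cast_inj (by rw [l.1, sn_zero, Int.cast_one]),
      fun l => ⟨by rw [l, sn_zero, Int.cast_one], rfl⟩⟩
  rw [hb, ← map_zero kT, kT_inj.eq_iff] at key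
  rw [hb, one_mul, (by decide : ∀ a b : F2, (a = 0 ↔ b = 0) → a = b) _ _ key]

/-- A coboundary with values in the kernel of `w` comes from the descent map. -/
theorem cob_im {H : Subgroup GQ} {Q : A} (h : ∀ g ∈ H, w • t.cob Q g = 0) :
    (∃ b : F2, ∀ g, t.cob Q g = kT (b * chi t.N g)) ∨ ∃ x y : Qb, Fx H x ∧ Fx H y ∧ x ≠ 0 ∧
      y ^ 2 = x ^ 3 + 4 * t.N * x ∧ ∀ g ∈ H, t.cob Q g = kT (chB x g) := by
  have fix : ∀ g ∈ H, (t.it 1).tw g (w • Q) = w • Q := fun g hg => by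
    have e := t.w_cob 1 Q g
    rw [pow_one, h g hg, cob] at e
    exact sub_eq_zero.1 e.symm
  rcases hP : w • Q with _ | ⟨X, Y, hXY⟩
  · exact .inl ⟨0, t.cob_half (hP.trans (map_zero kT).symm)⟩
  have eq := ns_iff.1 hXY
  by_cases X0 : X = 0
  · subst X0
    obtain rfl : Y = 0 := by simpa using eq
    exact .inl ⟨1, t.cob_half (hP.trans kT_one.symm)⟩
  have n := (t.it 1).ρ_ne
  have fx : ∀ g ∈ H, g ((t.it 1).ρ ^ 2 * X) = (t.it 1).ρ ^ 2 * X ∧
      g ((t.it 1).ρ ^ 3 * Y) = (t.it 1).ρ ^ 3 * Y := fun g hg => by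
    obtain ⟨h', e'⟩ := vm_some (f := (g : Qb →+* Qb)) ((t.it 1).four g) hXY
    have e := fix g hg
    rw [hP, tw, e', Point.some.injEq, zq, RingHom.coe_coe, div_pow, div_pow, div_mul_eq_mul_div,
      div_mul_eq_mul_div, div_eq_iff (pow_ne_zero _ n), div_eq_iff (pow_ne_zero _ n)] at e
    rw [map_mul, map_mul, map_pow, map_pow, e.1, e.2]
    exact ⟨mul_comm _ _, mul_comm _ _⟩
  have x0 := mul_ne_zero (pow_ne_zero 2 n) X0
  refine .inr ⟨(t.it 1).ρ ^ 2 * X, (t.it 1).ρ ^ 3 * Y, fun g hg => (fx g hg).1,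
    fun g hg => (fx g hg).2, x0, ?_, fun g hg => ?_⟩
  · have e : (t.it 1).ρ ^ 4 = -4 * t.N := by
      rw [(t.it 1).pw]
      simp [it]
    linear_combination (t.it 1).ρ ^ 6 * eq - (t.it 1).ρ ^ 2 * X * e
  obtain ⟨b, hb⟩ := exists_kT (h g hg)
  have e1 := wm_some II_mul ((w_smul Q).symm.trans hP)
  have e2 : sl (t.tw g Q) = (sn b : Qb) * sl Q := by
    rw [eq_add_of_sub_eq' hb]
    rcases F2_cases b with rfl | rfl
    · rw [map_zero, add_zero, sn_zero, Int.cast_one, one_mul]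
    · rw [kT_one, sl_add_T, sn_one]
      simp
  rw [tw, sl_vm (t.four g), zq, RingHom.coe_coe, div_mul_eq_mul_div, div_eq_iff t.ρ_ne] at e2
  rw [hb, chB_eq (z := t.ρ * sl Q) (b := b) x0 ?_ ?_]
  · change _ = (t.ρ * (1 - II) ^ 1) ^ 2 * X
    linear_combination -t.ρ ^ 2 * e1
  · rw [map_mul, e2]
    ring

variable {t} {v : ℕ} {c c' : GQ → A}

theorem loc_zero (t : Tw) (v : ℕ) : t.Loc v 0 := by
  exact ⟨0, fun g _ => by rw [cob, map_zero, sub_zero, Pi.zero_apply]⟩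

theorem Loc.add (h : t.Loc v c) (h' : t.Loc v c') : t.Loc v (c + c') := by
  obtain ⟨Q, h⟩ := h
  obtain ⟨Q', h'⟩ := h'
  exact ⟨Q + Q', fun g hg => by rw [cob_add, Pi.add_apply, Pi.add_apply, h g hg, h' g hg]⟩

theorem Loc.zsmul (h : t.Loc v c) (k : ℤ) : t.Loc v (k • c) := by
  obtain ⟨Q, h⟩ := h
  exact ⟨k • Q, fun g hg => by rw [cob_zsmul, Pi.smul_apply, Pi.smul_apply, h g hg]⟩

theorem Loc.pow (h : t.Loc v c) (k : ℕ) : (t.it k).Loc v (w ^ k • c) := by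
  obtain ⟨Q, h⟩ := h
  exact ⟨w ^ k • Q, fun g hg => by rw [Pi.smul_apply, h g hg, w_cob]⟩

theorem Loc.rot (h : t.Loc v c) (ht : ∀ g, zq t'.ρ g = zq t.ρ g * zq II g) :
    t'.Loc v (ii • c) := by
  obtain ⟨Q, h⟩ := h
  exact ⟨ii • Q, fun g hg => by rw [Pi.smul_apply, h g hg, cob, cob, smul_sub, ii_tw (ht g)]⟩

theorem Loc.congr (h : t.Loc v c) (ht : ∀ g ∈ Gv v, zq t'.ρ g = zq t.ρ g)
    (hc : ∀ g ∈ Gv v, c' g = c g) : t'.Loc v c' := by
  obtain ⟨Q, h⟩ := h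
  exact ⟨Q, fun g hg => by rw [hc g hg, h g hg, cob, cob, tw_congr (ht g hg)]⟩

theorem loc_sum {ι : Type} (s : Finset ι) (k : ι → ℤ) (c : ι → GQ → A)
    (h : ∀ i ∈ s, k i ≠ 0 → t.Loc v (c i)) : t.Loc v (∑ i ∈ s, k i • c i) := by
  refine Finset.sum_induction _ (t.Loc v) (fun _ _ => Loc.add) (t.loc_zero v) fun i hi => ?_
  by_cases e : k i = 0
  · rw [e, zero_smul]
    exact t.loc_zero v
  · exact (h i hi e).zsmul _

theorem LocT.loc (h : t.LocT v c) : t.Loc v c := ⟨_, h.choose_spec.2⟩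

theorem locT_zero (t : Tw) (v : ℕ) : t.LocT v 0 := by
  exact ⟨0, ⟨0, smul_zero _⟩, fun g _ => by rw [cob, map_zero, sub_zero, Pi.zero_apply]⟩

theorem LocT.add (h : t.LocT v c) (h' : t.LocT v c') : t.LocT v (c + c') := by
  obtain ⟨Q, ⟨k, e⟩, h⟩ := h
  obtain ⟨Q', ⟨k', e'⟩, h'⟩ := h'
  refine ⟨Q + Q', ⟨k + k', ?_⟩,
    fun g hg => by rw [cob_add, Pi.add_apply, Pi.add_apply, h g hg, h' g hg]⟩
  rw [smul_add, pow_add, mul_smul _ _ Q', e', mul_comm, mul_smul, e, smul_zero, smul_zero, add_zero]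

theorem LocT.zsmul (h : t.LocT v c) (k : ℤ) : t.LocT v (k • c) := by
  obtain ⟨Q, ⟨j, e⟩, h⟩ := h
  exact ⟨k • Q, ⟨j, by rw [smul_comm, e, smul_zero]⟩,
    fun g hg => by rw [cob_zsmul, Pi.smul_apply, Pi.smul_apply, h g hg]⟩

theorem LocT.pow (h : t.LocT v c) (k : ℕ) : (t.it k).LocT v (w ^ k • c) := by
  obtain ⟨Q, ⟨j, e⟩, h⟩ := h
  exact ⟨w ^ k • Q, ⟨j, by rw [smul_comm, e, smul_zero]⟩,
    fun g hg => by rw [Pi.smul_apply, h g hg, w_cob]⟩

theorem LocT.rot (h : t.LocT v c) (ht : ∀ g, zq t'.ρ g = zq t.ρ g * zq II g) :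
    t'.LocT v (ii • c) := by
  obtain ⟨Q, ⟨j, e⟩, h⟩ := h
  exact ⟨ii • Q, ⟨j, by rw [smul_comm, e, smul_zero]⟩,
    fun g hg => by rw [Pi.smul_apply, h g hg, cob, cob, smul_sub, ii_tw (ht g)]⟩

theorem LocT.congr (h : t.LocT v c) (ht : ∀ g ∈ Gv v, zq t'.ρ g = zq t.ρ g)
    (hc : ∀ g ∈ Gv v, c' g = c g) : t'.LocT v c' := by
  obtain ⟨Q, e, h⟩ := h
  exact ⟨Q, e, fun g hg => by rw [hc g hg, h g hg, cob, cob, tw_congr (ht g hg)]⟩

end Tw

end Pool.Agent.Lib.MP_696deb_nt.Q4
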