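import Pool.Agent.Lib.MP_696deb_nt.Q4.EllT
import Pool.Agent.Lib.MP_696deb_nt.Sm.EllC

/-! The local conditions at good primes and at the primes of the twist, isotropy. -/

set_option autoImplicit false

open scoped Classical

namespace Pool.Agent.Lib.MP_696deb_nt.Q4

open Sm

variable {p : ℕ}

theorem ellb_eq {x X y : Qb} {g : GQ} (x0 : x ≠ 0) (X0 : X ≠ 0) (hx : g x = x) (hX : g X = X)
    (hy : g y = y) (h : x * X = y * y) : chB x g = chB X g := by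
  have e := chB_mul x0 X0 hx hX
  rw [h, chB_sq hy] at e
  linear_combination -e - hilb_self (chB X g)

theorem ellb_fx {H : Subgroup GQ} {x : Qb} (hx : Fx H x) (n : ℕ) : Fx H (x ^ n) := fun g hg => by
  rw [map_pow, hx g hg]

theorem ellb_nat (H : Subgroup GQ) (n : ℕ) [n.AtLeastTwo] : Fx H (OfNat.ofNat n) :=
  fun g _ => map_ofNat g n

theorem ellb_fx1 (H : Subgroup GQ) : Fx H 1 := fun g _ => map_one g

theorem ellb_fx0 (H : Subgroup GQ) : Fx H 0 := fun g _ => map_zero g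

theorem ellb_val (hp : p.Prime) (h2 : p ≠ 2) {t : Tw} (hN : padicValInt p t.N = 1) :
    padicValInt p (t.it 1).N = 1 := by
  have := Fact.mk hp
  have h4 : ¬ (p : ℤ) ∣ (-4) ^ 1 := fun h => loc_ndvd hp h2
    ((Nat.prime_iff_prime_int.1 hp).dvd_of_dvd_pow (n := 2) (by simpa using h))
  rw [Tw.it, padicValInt.mul (by norm_num) t.ne, padicValInt.eq_zero_of_not_dvd h4, hN]

theorem zq_ine (hp : p.Prime) (h2 : p ≠ 2) {ρ : Qb} {N : ℤ} (h : ρ ^ 4 = N) (hN : ¬ (p : ℤ) ∣ N) :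
    ∀ g ∈ Iv p, zq ρ g = 1 := by
  intro g hg
  have hN0 : N ≠ 0 := by rintro rfl; exact hN (dvd_zero _)
  have h1 : nrm p ρ = 1 := by
    have : nrm p ρ ^ 4 = 1 := by rw [← map_pow, h, (nrm_int_eq_one hp).2 hN]
    exact (pow_eq_one_iff_of_nonneg zero_le four_ne_zero).1 this
  have h0 : ρ ≠ 0 := by rintro rfl; simp at h1
  have h3 := zq_sq hN0 h g
  rw [chi_ine_of_not_dvd hp h2 hN g hg, sn_zero, Int.cast_one, mul_self_eq_one_iff] at h3
  refine h3.resolve_right fun h4 => ?_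
  have h5 := hg.2 _ h1.le
  have h6 : g ρ - ρ = ((-2 : ℤ) : Qb) * ρ := by
    rw [zq, div_eq_iff h0] at h4
    rw [h4]; push_cast; ring
  rw [h6, map_mul, h1, mul_one] at h5
  exact loc_ndvd hp h2 (Int.dvd_neg.1 ((nrm_int_lt hp).1 h5))

/-- Norms from a quadratic extension. -/
theorem hs_norm {v : ℕ} (hv : v = 0 ∨ v.Prime) {d d' : ℤ} (hd : d ≠ 0) (hd' : d' ≠ 0) {a u z : Qb}
    (ha : Fx (Gv v) a) (hu : Fx (Gv v) u) (hz : Fx (Gv v) z) (a0 : a ≠ 0)
    (h0 : u ^ 2 - a * z ^ 2 ≠ 0) (h1 : ∀ g ∈ Gv v, chi d g = chB (u ^ 2 - a * z ^ 2) g)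
    (h2 : ∀ g ∈ Gv v, chi d' g = chB a g) : hs v d d' = 0 := by
  have e0 : (d' : Qb) ≠ 0 := Int.cast_ne_zero.2 hd'
  have f0 := fx_int (Gv v) d'
  have f1 : Fx (Gv v) (rt (a * d')) := fx_rt (fx_mul ha f0) fun g hg => by
    rw [chB_mul a0 e0 (ha g hg) (f0 g hg), ← h2 g hg]
    exact hilb_self _
  have e1 := rt_mul_self (a * d')
  generalize rt (a * d') = r at f1 e1
  have r0 : r ≠ 0 := by
    rintro rfl
    exact mul_ne_zero a0 e0 (by simpa using e1.symm)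
  have f2 := fx_sub (ellb_fx hu 2) (fx_mul ha (ellb_fx hz 2))
  by_cases z0 : z = 0
  · refine hs_triv hv hd hd' fun g hg => ?_
    rw [h1 g hg, z0, show u ^ 2 - a * 0 ^ 2 = u * u by ring, chB_sq (hu g hg)]
  by_cases u0 : u = 0
  · rw [hs_congr hv hd (neg_ne_zero.2 hd') hd' hd' (fun g hg => (h1 g hg).trans
      (ellb_eq h0 (Int.cast_ne_zero.2 (neg_ne_zero.2 hd')) (f2 g hg) (map_intCast g _)
        (fx_mul f1 hz g hg) (by rw [u0]; push_cast; linear_combination -z ^ 2 * e1)))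
      fun _ _ => rfl, hs_comm]
    exact ellb_neg v hd'
  have f3 := fx_div (fx_mul hu f0) (fx_mul f1 hz)
  have e2 : (u * d' / (r * z)) ^ 2 - d' = (u ^ 2 - a * z ^ 2) * (d' / (r * z)) ^ 2 := by
    field_simp
    linear_combination -z ^ 2 * e1
  have e3 : (u * d' / (r * z)) ^ 2 - d' ≠ 0 :=
    e2 ▸ mul_ne_zero h0 (pow_ne_zero _ (div_ne_zero e0 (mul_ne_zero r0 z0)))
  obtain ⟨m, n, n0, k⟩ := approx_cls hv (ellb_fx f3 2) {0, d'} (by
    simp only [Finset.mem_insert, Finset.mem_singleton, forall_eq_or_imp, forall_eq]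
    exact ⟨by simp [u0, hd', r0, z0], sub_ne_zero.1 e3⟩)
  obtain ⟨k1, l1⟩ := k 0 (by simp)
  obtain ⟨k2, l2⟩ := k d' (by simp)
  rw [zero_mul, sub_zero] at k1
  simp only [zero_mul, sub_zero, Int.cast_zero] at l1
  have l3 : ∀ g ∈ Gv v, chi n g + chi m g = 0 := fun g hg => by
    rw [← chi_mul n0 k1, ← l1 g hg, sq, chB_sq (f3 g hg)]
  have e4 := hs_stein v k2 (mul_ne_zero hd' n0) (by rwa [sub_add_cancel])
  rw [sub_add_cancel] at e4
  rw [← e4]
  refine hs_congr hv hd (mul_ne_zero k2 k1) hd' (mul_ne_zero (mul_ne_zero hd' n0) k1)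
    (fun g hg => ?_) fun g hg => ?_
  · rw [h1 g hg, ellb_eq h0 e3 (f2 g hg) (fx_sub (ellb_fx f3 2) f0 g hg)
      (fx_mul f2 (fx_div f0 (fx_mul f1 hz)) g hg) (by rw [e2]; ring), l2 g hg, chi_mul n0 k2,
      chi_mul k2 k1]
    linear_combination l3 g hg - hilb_self (chi m g)
  · rw [mul_assoc, chi_mul hd' (mul_ne_zero n0 k1), chi_mul n0 k1, l3 g hg, add_zero]

namespace Tw

variable {t : Tw} {c : GQ → A} {n : ℕ}

/-- Inertia at a good prime fixes a point if it fixes its image. -/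
theorem root_fix (hp : p.Prime) (h2 : p ≠ 2) (hN : ¬ (p : ℤ) ∣ t.N) {Q : A}
    (h : ∀ g ∈ Iv p, w • t.cob Q g = 0) : ∀ g ∈ Iv p, t.cob Q g = 0 := by
  intro g hg
  rcases t.cob_im h with ⟨b, e⟩ | ⟨x, y, hx, hy, x0, e, k⟩
  · rw [e, chi_ine_of_not_dvd hp h2 hN g hg, mul_zero, map_zero]
  have v0 : nrm p x ≠ 0 := (Valuation.ne_zero_iff _).2 x0
  have v1 : nrm p (4 * t.N) = 1 := by
    rw [map_mul, ellc_four hp h2, (nrm_int_eq_one hp).2 hN, mul_one]
  have e1 := congrArg (nrm p) e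
  rw [show x ^ 3 + 4 * t.N * x = x * (x ^ 2 + 4 * t.N) by ring, map_mul, map_pow] at e1
  obtain ⟨z, hz, hv⟩ : ∃ z, Fx (Iv p) z ∧ nrm p x = nrm p z ^ 2 := by
    rcases lt_trichotomy (nrm p x) 1 with c | c | c
    · refine ⟨y, hy, ?_⟩
      rw [e1, (nrm p).map_add_eq_of_lt_right (by
        rw [v1, map_pow]; exact pow_lt_one₀ zero_le c two_ne_zero), v1, mul_one]
    · exact ⟨1, ellb_fx1 _, by rw [c, map_one, one_pow]⟩
    · refine ⟨y / x, fx_div hy hx, ?_⟩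
      rw [map_div₀, div_pow, e1, (nrm p).map_add_eq_of_lt_left (by
        rw [v1, map_pow]; exact one_lt_pow₀ c two_ne_zero), map_pow,
        mul_div_cancel_right₀ _ (pow_ne_zero 2 v0)]
  have z0 : z ≠ 0 := by
    rintro rfl
    exact v0 (by simp [hv])
  have f1 := fx_div hx (ellb_fx hz 2)
  rw [k g hg, ellb_eq x0 (div_ne_zero x0 (pow_ne_zero 2 z0)) (hx g hg) (f1 g hg)
    (fx_div hx hz g hg) (by field_simp), chB_unit hp h2 hg (f1 g hg) (by
      rw [map_div₀, map_pow, ← hv, div_self v0]), map_zero]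

theorem ellb_zero (t : Tw) (g : GQ) : t.cob 0 g = 0 := by simp [cob]

theorem ellb_sub (t : Tw) (P Q : A) (g : GQ) : t.cob (P - Q) g = t.cob P g - t.cob Q g := by
  simp only [cob, map_sub]
  abel

theorem ellb_w (t : Tw) (Q : A) (g : GQ) : w • t.cob Q g = (t.it 1).cob (w • Q) g := by
  simpa using t.w_cob 1 Q g

theorem ellb_good (hp : p.Prime) (h2 : p ≠ 2) (hN : ¬ (p : ℤ) ∣ t.N) {Q : A}
    (h : ∀ g ∈ Iv p, w ^ n • t.cob Q g = 0) : ∀ g ∈ Iv p, t.cob Q g = 0 := by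
  induction n generalizing t Q with
  | zero => simpa using h
  | succ n ih =>
    refine root_fix hp h2 hN fun g hg => ?_
    rw [ellb_w]
    refine ih (mt (t.dvd_it hp h2 1).1 hN) (fun g hg => ?_) g hg
    rw [← ellb_w, ← mul_smul, ← pow_succ, h g hg]

theorem tw_ine (t : Tw) (hp : p.Prime) (h2 : p ≠ 2) {g : GQ} (hg : g ∈ Iv p) {P : A}
    (h : w ^ n • P = 0) : t.tw g P = un (zq t.ρ g) • P := by
  let t0 : Tw := ⟨1, 1, one_ne_zero, by simp⟩
  have h1 := ellb_good (t := t0) hp h2 (fun e => hp.one_lt.ne' (by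
    exact_mod_cast Int.eq_one_of_dvd_one (by positivity) e)) (n := n) (Q := P)
    (fun k _ => by rw [w_cob, h, ellb_zero]) g hg
  rw [tw_rel (t := t0) (t.four g) (by simp [t0, zq]), sub_eq_zero.1 h1]

theorem loc_good (hp : p.Prime) (h2 : p ≠ 2) (hN : ¬ (p : ℤ) ∣ t.N) (hn : ∀ g, w ^ n • c g = 0)
    (h : t.Loc p c) : c (sig p) = 0 := by
  obtain ⟨Q, hQ⟩ := h
  rw [hQ _ (sig_mem hp h2)]
  exact ellb_good hp h2 hN (fun g hg => hQ g (Iv_le hp hg) ▸ hn g) _ (sig_ine hp h2)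

theorem cob_sig (t : Tw) (hp : p.Prime) (h2 : p ≠ 2) {Q : A} (h : w ^ n • Q = 0) :
    t.cob Q (sig p) = uu (zq t.ρ (sig p)) • w • Q := by
  rw [cob, t.tw_ine hp h2 (sig_ine hp h2) h, un_eq, add_smul, one_smul, add_sub_cancel_left,
    mul_comm, mul_smul]

theorem unit_sig (hp : p.Prime) (h2 : p ≠ 2) (hN : padicValInt p t.N = 1) :
    IsUnit (uu (zq t.ρ (sig p))) := by
  refine isUnit_uu ?_
  rw [zq_sq t.ne t.pw, chi_sig hp h2 t.ne, hN, Nat.cast_one, sn_one]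
  simp

/-- At a prime of the twist the descent map has two values. -/
theorem im_ram (hp : p.Prime) (h2 : p ≠ 2) {N : ℤ} (hN : padicValInt p N = 1) {x y : Qb}
    (hx : Fx (Gv p) x) (hy : Fx (Gv p) y) (x0 : x ≠ 0) (h : y ^ 2 = x ^ 3 + 4 * N * x) :
    ∃ b : F2, ∀ g ∈ Gv p, chB x g = b * chi N g := by
  have N0 : N ≠ 0 := by
    rintro rfl
    simp at hN
  have p1 : (1 : NNReal) < p := by exact_mod_cast hp.one_lt
  have v1 : nrm p (4 * N) = (p : NNReal)⁻¹ := by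
    rw [map_mul, ellc_four hp h2, nrm_int hp N0, hN, one_mul, pow_one]
  have f0 : Fx (Gv p) (4 * N) := fx_mul (ellb_nat _ 4) (fx_int _ N)
  have f1 := fx_add (ellb_fx hx 2) f0
  have key : ∀ X : Qb, Fx (Gv p) X → nrm p (x ^ 2 + 4 * N - X) < nrm p X →
      ∀ g ∈ Gv p, chB x g = chB X g := fun X hX c g hg => by
    rw [← chB_close hp le_rfl f1 hX (by rwa [ellc_four hp h2, mul_one]) g hg]
    refine ellb_eq x0 (fun e => ?_) (hx g hg) (f1 g hg) (hy g hg) (by linear_combination -h)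
    rw [e, zero_sub, Valuation.map_neg] at c
    exact c.false
  rcases lt_or_ge (nrm p x) 1 with c | c
  · refine ⟨1, fun g hg => ?_⟩
    rw [key _ f0 ?_ g hg, one_mul]
    · exact ellb_eq (mul_ne_zero (by norm_num) (Int.cast_ne_zero.2 N0)) (Int.cast_ne_zero.2 N0)
        (f0 g hg) (map_intCast g N) (fx_mul (ellb_nat _ 2) (fx_int _ N) g hg) (by ring)
    obtain ⟨j, hj⟩ := nrm_fx hp (fun g hg => hx g (Iv_le hp hg)) x0
    rw [hj, inv_lt_one₀ (zpow_pos (one_pos.trans p1) _), one_lt_zpow_iff_right₀ p1] at c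
    rw [add_sub_cancel_right, map_pow, v1, hj, inv_pow, ← zpow_natCast, ← zpow_mul,
      inv_lt_inv₀ (zpow_pos (one_pos.trans p1) _) (one_pos.trans p1)]
    nth_rewrite 1 [← zpow_one (p : NNReal)]
    rw [zpow_lt_zpow_iff_right₀ p1]
    omega
  · refine ⟨0, fun g hg => ?_⟩
    rw [key _ (ellb_fx hx 2) ?_ g hg, zero_mul, sq, chB_sq (hx g hg)]
    rw [add_sub_cancel_left, v1, map_pow]
    exact (inv_lt_one_of_one_lt₀ p1).trans_le (one_le_pow₀ c)

theorem Loc.locT (hp : p.Prime) (h2 : p ≠ 2) (hN : padicValInt p t.N = 1)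
    (hn : ∀ g ∈ Gv p, w ^ n • c g = 0) (h : t.Loc p c) : t.LocT p c := by
  obtain ⟨Q, hQ⟩ := h
  suffices H : ∃ Q' : A, (∃ k : ℕ, w ^ k • Q' = 0) ∧ ∀ g ∈ Gv p, t.cob Q g = t.cob Q' g by
    obtain ⟨Q', h1, h3⟩ := H
    exact ⟨Q', h1, fun g hg => (hQ g hg).trans (h3 g hg)⟩
  replace hn : ∀ g ∈ Gv p, w ^ n • t.cob Q g = 0 := fun g hg => hQ g hg ▸ hn g hg
  clear hQ
  induction n generalizing t Q with
  | zero => exact ⟨0, ⟨0, smul_zero _⟩, fun g hg => by simpa [ellb_zero] using hn g hg⟩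
  | succ n ih =>
    obtain ⟨Q1, ⟨k, hk⟩, h1⟩ := ih (ellb_val hp h2 hN) (w • Q) fun g hg => by
      rw [← ellb_w, ← mul_smul, ← pow_succ, hn g hg]
    obtain ⟨Q0, rfl⟩ := exists_root 1 Q1
    rw [pow_one] at hk h1
    obtain ⟨b, hb⟩ : ∃ b : F2, ∀ g ∈ Gv p, t.cob (Q - Q0) g = kT (b * chi t.N g) := by
      rcases t.cob_im (H := Gv p) (Q := Q - Q0) fun g hg => by
        rw [ellb_sub, smul_sub, ellb_w, ellb_w, h1 g hg, sub_self] with
        ⟨b, e⟩ | ⟨x, y, hx, hy, x0, e, l⟩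
      · exact ⟨b, fun g _ => e g⟩
      · obtain ⟨b, hb⟩ := im_ram hp h2 hN hx hy x0 e
        exact ⟨b, fun g hg => by rw [l g hg, hb g hg]⟩
    obtain ⟨R, hR⟩ := exists_root 1 (kT b)
    rw [pow_one] at hR
    refine ⟨Q0 + R, ⟨k + 2, ?_⟩, fun g hg => ?_⟩
    · rw [smul_add, show w ^ (k + 2) = w * (w ^ k * w) by ring, mul_smul, mul_smul, hk,
        show w * (w ^ k * w) = w ^ k * (w * w) by ring, mul_smul, mul_smul, hR, w_kT]
      simp
    · rw [cob_add, Pi.add_apply, t.cob_half hR, ← hb g hg, ellb_sub, add_sub_cancel]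

theorem LocT.one (hp : p.Prime) (h2 : p ≠ 2) (hN : padicValInt p t.N = 1) (h : t.LocT p c) {b : F2}
    (hb : c (sig p) = kT b) : ∀ g ∈ Gv p, c g = kT (b * chi t.N g) := by
  obtain ⟨Q, ⟨k, hk⟩, hQ⟩ := h
  have hu := unit_sig hp h2 hN
  rw [hQ _ (sig_mem hp h2), t.cob_sig hp h2 hk] at hb
  have h1 : w • w • Q = 0 := by
    rw [← hu.smul_eq_zero, smul_comm, hb, w_kT]
  rw [unit_smul hu h1] at hb
  exact fun g hg => (hQ g hg).trans (t.cob_half hb g)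

theorem locT_del (t : Tw) (v : ℕ) (b : F2) : t.LocT v fun g => kT (b * chi t.N g) := by
  obtain ⟨R, hR⟩ := exists_root 1 (kT b)
  rw [pow_one] at hR
  exact ⟨R, ⟨2, by rw [sq, mul_smul, hR, w_kT]⟩, fun g _ => (t.cob_half hR g).symm⟩

theorem ellb_cases {v : ℕ} {d : ℤ} (h : t.Loc v (kum d)) : (∀ g ∈ Gv v, chi d g = 0) ∨
    (∀ g ∈ Gv v, chi d g = chi t.N g) ∨ ∃ x y : Qb, Fx (Gv v) x ∧ Fx (Gv v) y ∧ x ≠ 0 ∧
      y ^ 2 = x ^ 3 + 4 * t.N * x ∧ ∀ g ∈ Gv v, chi d g = chB x g := by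
  obtain ⟨Q, hQ⟩ := h
  rcases t.cob_im (H := Gv v) (Q := Q) fun g hg => hQ g hg ▸ w_kum d g with
    ⟨b, e⟩ | ⟨x, y, hx, hy, x0, e, k⟩
  · have k := fun g hg => kT_inj ((hQ g hg).trans (e g))
    rcases F2_cases b with rfl | rfl
    · exact Or.inl fun g hg => by rw [k g hg, zero_mul]
    · exact Or.inr (Or.inl fun g hg => by rw [k g hg, one_mul])
  · exact Or.inr (Or.inr ⟨x, y, hx, hy, x0, e, fun g hg => kT_inj ((hQ g hg).trans (k g hg))⟩)

/-- Isotropy of the local conditions. -/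
theorem loc_iso {v : ℕ} (hv : v = 0 ∨ v.Prime) {d d' : ℤ} (hd : d ≠ 0) (hd' : d' ≠ 0)
    (h : t.Loc v (kum d)) (h' : (t.it 1).Loc v (kum d')) : hs v d d' = 0 := by
  have hN : ((t.it 1).N : Qb) = -4 * t.N := by simp [it]
  have N0 : (t.N : Qb) ≠ 0 := Int.cast_ne_zero.2 t.ne
  have fN := fx_int (Gv v) t.N
  have f2 := ellb_nat (Gv v) 2
  have f4 := ellb_nat (Gv v) 4
  have T1 : (∀ g ∈ Gv v, chi d' g = 0) → hs v d d' = 0 := fun k => by
    rw [hs_comm]; exact hs_triv hv hd' hd k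
  rcases ellb_cases h with k | k | ⟨x, y, hx, hy, x0, e, k⟩
  · exact hs_triv hv hd hd' k
  all_goals rcases ellb_cases h' with k' | k' | ⟨x', y', hx', hy', x0', e', k'⟩
  · exact T1 k'
  · have e1 : (0 : Qb) ^ 2 - (t.it 1).N * (1 / 2) ^ 2 = t.N := by rw [hN]; ring
    exact hs_norm hv hd hd' (fx_int _ _) (ellb_fx0 _) (fx_div (ellb_fx1 _) f2)
      (Int.cast_ne_zero.2 (t.it 1).ne) (e1 ▸ N0) (e1 ▸ k) k'
  · rw [hN] at e'
    by_cases c : x' ^ 2 - t.N * 4 ^ 2 = 0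
    · refine hs_triv hv hd hd' fun g hg => ?_
      rw [k g hg, chi, show (t.N : Qb) = x' / 4 * (x' / 4) by linear_combination -c / 16,
        chB_sq (fx_div hx' f4 g hg)]
    · rw [hs_comm]
      exact hs_norm hv hd' hd fN hx' f4 N0 c (fun g hg => (k' g hg).trans (ellb_eq x0' c (hx' g hg)
        (fx_sub (ellb_fx hx' 2) (fx_mul fN (ellb_fx f4 2)) g hg) (hy' g hg)
        (by linear_combination -e'))) k
  · exact T1 k'
  · by_cases c : x ^ 2 - (t.it 1).N * 1 ^ 2 = 0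
    · refine T1 fun g hg => ?_
      rw [k' g hg, chi, show ((t.it 1).N : Qb) = x * x by linear_combination -c, chB_sq (hx g hg)]
    · exact hs_norm hv hd hd' (fx_int _ _) hx (ellb_fx1 _) (Int.cast_ne_zero.2 (t.it 1).ne) c
        (fun g hg => (k g hg).trans (ellb_eq x0 c (hx g hg) (fx_sub (ellb_fx hx 2)
          (fx_mul (fx_int _ _) (ellb_fx (ellb_fx1 _) 2)) g hg) (hy g hg)
          (by rw [hN]; linear_combination -e))) k'
  · rw [hN] at e'
    by_cases c : (y / x) ^ 2 - x' = 0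
    · refine T1 fun g hg => ?_
      rw [k' g hg, show x' = y / x * (y / x) by linear_combination -c, chB_sq (fx_div hy hx g hg)]
    have g1 := fx_div hy hx
    have g2 := fx_sub hx (fx_div hx' f2)
    have g3 := fx_div hy' (fx_mul f2 hx')
    have g4 := fx_add (fx_mul g1 g2) (fx_mul hx' g3)
    have g5 := fx_add (fx_mul g1 g3) g2
    have e1 : (x - x' / 2) ^ 2 - x' * (y' / (2 * x')) ^ 2 = x * ((y / x) ^ 2 - x') := by
      field_simp
      linear_combination -x * e' - 4 * x' * e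
    have e2 : (y / x * (x - x' / 2) + x' * (y' / (2 * x'))) ^ 2 -
        x' * (y / x * (y' / (2 * x')) + (x - x' / 2)) ^ 2 = x * ((y / x) ^ 2 - x') ^ 2 := by
      linear_combination ((y / x) ^ 2 - x') * e1
    have c' := e2 ▸ mul_ne_zero x0 (pow_ne_zero 2 c)
    exact hs_norm hv hd hd' hx' g4 g5 x0' c' (fun g hg => (k g hg).trans (ellb_eq x0 c' (hx g hg)
      (fx_sub (ellb_fx g4 2) (fx_mul hx' (ellb_fx g5 2)) g hg)
      (fx_mul hx (fx_sub (ellb_fx g1 2) hx') g hg) (by rw [e2]; ring))) k'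

end Tw

end Pool.Agent.Lib.MP_696deb_nt.Q4
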