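import Pool.Agent.Lib.MP_696deb_nt.Q4.EllT

/-! Local points are algebraic up to divisible ones. -/

set_option autoImplicit false

open scoped Classical

namespace Pool.Agent.Lib.MP_696deb_nt.Q4

open Sm

/-- Rational numbers approximate the square classes of `x` and of `x ^ 3 - a x`. -/
def Dense2 (F : Type) [Field F] [CharZero F] : Prop := ∀ (a : ℤ) (x : F), x ≠ 0 →
  x ^ 3 - a * x ≠ 0 → ∃ (r : ℚ) (u v : F), u ≠ 0 ∧ v ≠ 0 ∧ (r : F) = u ^ 2 * x ∧
    (r : F) ^ 3 - a * r = v ^ 2 * (x ^ 3 - a * x)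

open Filter Topology in
theorem linkA_dense {F : Type} [NontriviallyNormedField F] [CompleteSpace F] [CharZero F]
    (hd : DenseRange ((↑) : ℚ → F)) : Dense2 F := fun a x hx hf => by
  have h1 : ∀ᶠ z in 𝓝 (1 : F), ∃ u, u ≠ 0 ∧ z = u ^ 2 := by
    have := (hasStrictDerivAt_pow 2 (1 : F)).map_nhds_eq (by simp)
    rw [one_pow] at this
    rw [← this, eventually_map]
    exact (eventually_ne_nhds one_ne_zero).mono fun u hu => ⟨u, hu, rfl⟩
  have c1 : Tendsto (fun y : F => y / x) (𝓝 x) (𝓝 1) :=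
    Continuous.tendsto' (by fun_prop) _ _ (div_self hx)
  have c2 : Tendsto (fun y : F => (y ^ 3 - a * y) / (x ^ 3 - a * x)) (𝓝 x) (𝓝 1) :=
    Continuous.tendsto' (by fun_prop) _ _ (div_self hf)
  obtain ⟨r, ⟨u, u0, hu⟩, v, v0, hv⟩ := hd.mem_nhds ((c1.eventually h1).and (c2.eventually h1))
  exact ⟨r, u, v, u0, v0, (div_eq_iff hx).1 hu, (div_eq_iff hf).1 hv⟩

theorem dense2_real : Dense2 ℝ := linkA_dense Rat.denseRange_cast

theorem dense2_padic (p : ℕ) [Fact p.Prime] : Dense2 ℚ_[p] :=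
  linkA_dense (Padic.denseRange_ratCast p)

/-- The twisted action of a local automorphism on the points over the algebraic closure. -/
noncomputable def ltw {F : Type} [Field F] (j : Qb →+* AlgebraicClosure F) (t : Tw)
    (s : AlgebraicClosure F ≃ₐ[F] AlgebraicClosure F) :
    P1 (AlgebraicClosure F) →+ P1 (AlgebraicClosure F) :=
  vm (s : AlgebraicClosure F →+* AlgebraicClosure F) (s (j t.ρ) / j t.ρ)

section

variable {F : Type} [Field F] [CharZero F] (j : Qb →+* AlgebraicClosure F) (t : Tw)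
  (s : AlgebraicClosure F ≃ₐ[F] AlgebraicClosure F)

omit [CharZero F] in
theorem linkA_I : j II * j II = -1 := by rw [← map_mul, II_mul, map_neg, map_one]

omit [CharZero F] in
theorem linkA_pw : j t.ρ ^ 4 = t.N := by rw [← map_pow, t.pw, map_intCast]

omit [CharZero F] in
theorem linkA_ne : j t.ρ ≠ 0 := (map_ne_zero j).2 t.ρ_ne

omit [CharZero F] in
theorem linkA_four : (s (j t.ρ) / j t.ρ) ^ 4 = 1 := by
  rw [div_pow, ← map_pow, linkA_pw, map_intCast, ← linkA_pw j, div_self]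
  exact pow_ne_zero _ (linkA_ne j t)

theorem linkA_wm (P : P1 (AlgebraicClosure F)) :
    wm (j II) (ltw j t s P) = ltw j (t.it 1) s (wm (j II) P) := by
  rw [ltw, ltw, wm_vm (linkA_I j) (linkA_I j) (linkA_four j t s)]
  congr 2
  simp only [Tw.it, pow_one, map_mul, map_sub, map_one, RingHom.coe_coe, div_mul_div_comm]

theorem linkA_wm' (P : A) : wm (j II) (vm j 1 P) = vm j 1 (wm II P) := by
  rw [wm_vm II_mul (linkA_I j) (one_pow 4), map_sub, map_one, div_self, one_mul]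
  intro e
  have := linkA_I j
  rw [← sub_eq_zero.1 e] at this
  norm_num at this

theorem linkA_pt {x y : Qb} (h : NS (j x) (j y)) : ∃ P : A, vm j 1 P = .some _ _ h := by
  have k : NS x y := ns_iff.2 (j.injective (by simpa using ns_iff.1 h))
  obtain ⟨h', e⟩ := vm_some (f := j) (one_pow 4) k
  exact ⟨_, e.trans (pt_ext (by simp) (by simp))⟩

theorem linkA_alg {S : P1 (AlgebraicClosure F)} {P : A} (h : vm j 1 P = wm (j II) S) :
    ∃ Q : A, S = vm j 1 Q := by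
  obtain ⟨Q, rfl⟩ := wm_surj II_mul P
  rw [← linkA_wm', eq_comm, ← sub_eq_zero, ← map_sub, wm_eq_zero (linkA_I j)] at h
  rcases h with h | h
  · exact ⟨Q, sub_eq_zero.1 h⟩
  · exact ⟨T + Q, by rw [map_add, vm_T (one_pow 4), ← h, sub_add_cancel]⟩

theorem linkA_mv {S : P1 (AlgebraicClosure F)}
    (h : ltw j (t.it 1) s (wm (j II) S) = wm (j II) S) :
    ltw j t s S - S = 0 ∧ s (j t.ρ * sl S) = j t.ρ * sl S ∨
      ltw j t s S - S = T1 _ ∧ s (j t.ρ * sl S) = -(j t.ρ * sl S) := by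
  have e : s (j t.ρ * sl S) = j t.ρ * sl (ltw j t s S) := by
    rw [ltw, sl_vm (linkA_four j t s), map_mul, ← mul_assoc, mul_div_cancel₀ _ (linkA_ne j t)]
    rfl
  rw [← linkA_wm, ← sub_eq_zero, ← map_sub, wm_eq_zero (linkA_I j)] at h
  refine h.imp (fun h => ⟨h, by rw [e, sub_eq_zero.1 h]⟩) fun h => ⟨h, ?_⟩
  rw [e, sub_eq_iff_eq_add'.1 h, sl_add_T, mul_neg]

theorem linkA_one (hF : Dense2 F) {S : P1 (AlgebraicClosure F)}
    (h : ∀ s, ltw j (t.it 1) s (wm (j II) S) = wm (j II) S) :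
    ∃ (Q : A) (R : P1 (AlgebraicClosure F)), (∀ s, ltw j t s R = R) ∧ S = vm j 1 Q + R := by
  have alg : (∃ P : A, vm j 1 P = wm (j II) S) →
      ∃ (Q : A) (R : P1 (AlgebraicClosure F)), (∀ s, ltw j t s R = R) ∧ S = vm j 1 Q + R :=
    fun ⟨P, hP⟩ => (linkA_alg j hP).imp fun Q hQ => ⟨0, fun _ => map_zero _, by rw [add_zero, hQ]⟩
  rcases e : wm (j II) S with _ | ⟨X, Y, k⟩
  · exact alg ⟨0, (map_zero _).trans e.symm⟩
  have k1 := ns_iff.1 k
  by_cases hY : Y = 0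
  · subst hY
    have : ∃ x y : Qb, j x = X ∧ j y = 0 := by
      have : X * (X - 1) * (X + 1) = 0 := by linear_combination -k1
      simp only [mul_eq_zero] at this
      rcases this with (h | h) | h
      exacts [⟨0, 0, by simp [h], by simp⟩, ⟨1, 0, by simp [sub_eq_zero.1 h], by simp⟩,
        ⟨-1, 0, by simp [eq_neg_of_add_eq_zero_left h], by simp⟩]
    obtain ⟨x, y, rfl, hy⟩ := this
    obtain ⟨P, hP⟩ := linkA_pt j (x := x) (y := y) (hy ▸ k)
    exact alg ⟨P, by rw [hP, e]; exact pt_ext rfl hy⟩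
  have hX : X ≠ 0 := fun h => hY (by simpa [h] using k1)
  have σ0 := linkA_ne j (t.it 1)
  have σ4 := linkA_pw j (t.it 1)
  have σ1 : j (t.it 1).ρ = j t.ρ * (1 - j II) := by simp [Tw.it]
  have fx : ∀ s : AlgebraicClosure F ≃ₐ[F] AlgebraicClosure F,
      s (j (t.it 1).ρ ^ 2 * X) = j (t.it 1).ρ ^ 2 * X ∧
      s (j (t.it 1).ρ ^ 3 * Y) = j (t.it 1).ρ ^ 3 * Y := fun s => by
    obtain ⟨_, e1⟩ := vm_some (f := (s : AlgebraicClosure F →+* AlgebraicClosure F))
      (linkA_four j (t.it 1) s) k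
    have e2 := h s
    rw [e, ltw, e1, WeierstrassCurve.Affine.Point.some.injEq, RingHom.coe_coe] at e2
    constructor
    · conv_rhs => rw [← e2.1]
      rw [map_mul, map_pow]
      field_simp
    · conv_rhs => rw [← e2.2]
      rw [map_mul, map_pow]
      field_simp
  obtain ⟨ξ, hξ⟩ := (InfiniteGalois.mem_range_algebraMap_iff_fixed _).2 fun s => (fx s).1
  obtain ⟨η, hη⟩ := (InfiniteGalois.mem_range_algebraMap_iff_fixed _).2 fun s => (fx s).2
  have inj := (algebraMap F (AlgebraicClosure F)).injective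
  have e3 : ξ ^ 3 - (t.it 1).N * ξ = η ^ 2 := inj (by
    rw [map_sub, map_mul, map_pow, map_pow, map_intCast, hξ, hη, ← σ4]
    linear_combination -j (t.it 1).ρ ^ 6 * k1)
  obtain ⟨r, u, v, u0, -, hu, hv⟩ := hF (t.it 1).N ξ
    (fun h => mul_ne_zero (pow_ne_zero 2 σ0) hX (by rw [← hξ, h, map_zero]))
    (by
      rw [e3]
      exact pow_ne_zero _ fun h => mul_ne_zero (pow_ne_zero 3 σ0) hY (by rw [← hη, h, map_zero]))
  rw [e3] at hv
  have hu' := congrArg (algebraMap F (AlgebraicClosure F)) hu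
  have hv' := congrArg (algebraMap F (AlgebraicClosure F)) hv
  simp only [map_sub, map_mul, map_pow, map_ratCast, map_intCast, ← σ4] at hu' hv'
  have ex : j (r / (t.it 1).ρ ^ 2) = r / j (t.it 1).ρ ^ 2 := by simp
  have e4 : (algebraMap F _ (v * η) / j (t.it 1).ρ ^ 3) ^ 2 =
      j (r / (t.it 1).ρ ^ 2) ^ 3 - j (r / (t.it 1).ρ ^ 2) := by
    rw [ex, map_mul]
    field_simp
    linear_combination -hv'
  obtain ⟨y, hy⟩ : ∃ y : Qb, j y = algebraMap F _ (v * η) / j (t.it 1).ρ ^ 3 := by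
    have := congrArg j (rt_mul_self ((r / (t.it 1).ρ ^ 2) ^ 3 - r / (t.it 1).ρ ^ 2))
    rw [map_mul, map_sub, map_pow, ← e4, ← sq, sq_eq_sq_iff_eq_or_eq_neg] at this
    exact this.elim (fun h => ⟨_, h⟩) fun h => ⟨-_, by rw [map_neg, h, neg_neg]⟩
  obtain ⟨P, hP⟩ := linkA_pt j (x := r / (t.it 1).ρ ^ 2) (y := y) (ns_iff.2 (hy ▸ e4))
  obtain ⟨Q, rfl⟩ := wm_surj II_mul P
  rw [← linkA_wm'] at hP
  refine ⟨Q, S - vm j 1 Q, fun s => ?_, (add_sub_cancel _ _).symm⟩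
  have s0 : s (j (t.it 1).ρ) ≠ 0 := (map_ne_zero s).2 σ0
  have h' : ltw j (t.it 1) s (wm (j II) (vm j 1 Q)) = wm (j II) (vm j 1 Q) := by
    rw [hP, ltw]
    refine (vm_some (linkA_four j (t.it 1) s) _).2.trans (pt_ext ?_ ?_)
    · rw [ex, RingHom.coe_coe, map_div₀, map_pow, map_ratCast]
      field_simp
    · rw [hy, RingHom.coe_coe, map_div₀, map_pow, s.commutes]
      field_simp
  have r1 : (j t.ρ * sl S) ^ 2 = j (t.it 1).ρ ^ 2 * X := by
    rw [mul_pow, ← wm_some (linkA_I j) e, σ1]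
    ring
  have r2 : (j t.ρ * sl (vm j 1 Q)) ^ 2 = (algebraMap F _ u * (j t.ρ * sl S)) ^ 2 := by
    rw [mul_pow _ (_ * _), r1, ← hξ, ← hu', mul_pow, ← wm_some (linkA_I j) hP, ex, ← mul_assoc,
      ← mul_pow, ← σ1, mul_div_cancel₀ _ (pow_ne_zero 2 σ0)]
  obtain ⟨c, c0, hc⟩ : ∃ c : F, c ≠ 0 ∧
      j t.ρ * sl (vm j 1 Q) = algebraMap F _ c * (j t.ρ * sl S) :=
    (sq_eq_sq_iff_eq_or_eq_neg.1 r2).elim (fun h => ⟨u, u0, h⟩)
      fun h => ⟨-u, neg_ne_zero.2 u0, by rw [h, map_neg, neg_mul]⟩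
  have n0 : algebraMap F _ c * (j t.ρ * sl S) ≠ 0 := mul_ne_zero ((map_ne_zero _).2 c0) fun h =>
    mul_ne_zero (pow_ne_zero 2 σ0) hX (by rw [← r1, h, zero_pow two_ne_zero])
  have m2 := linkA_mv j t s h'
  rw [hc, map_mul s, s.commutes] at m2
  rw [map_sub, sub_eq_sub_iff_sub_eq_sub]
  rcases linkA_mv j t s (h s) with ⟨a, b⟩ | ⟨a, b⟩ <;> rcases m2 with ⟨a', b'⟩ | ⟨a', b'⟩
  · rw [a, a']
  · exact absurd (self_eq_neg.1 (by rwa [b] at b')) n0
  · exact absurd (neg_eq_self.1 (by rw [← mul_neg, ← b, b'])) n0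
  · rw [a, a']

end

/-- A point with a multiple that is fixed is algebraic up to a fixed point. -/
theorem alg_of_fixed {F : Type} [Field F] [CharZero F] (hF : Dense2 F)
    (j : Qb →+* AlgebraicClosure F) (m : ℕ) (t : Tw) (S : P1 (AlgebraicClosure F))
    (h : ∀ s, ltw j (t.it m) s ((wm (j II))^[m] S) = (wm (j II))^[m] S) :
    ∃ (Q : A) (R : P1 (AlgebraicClosure F)), (∀ s, ltw j t s R = R) ∧ S = vm j 1 Q + R := by
  induction m generalizing t S with
  | zero => exact ⟨0, S, by rwa [Tw.it_zero] at h, by rw [map_zero, zero_add]⟩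
  | succ m ih =>
    obtain ⟨Q, R, h1, h2⟩ := ih (t.it 1) (wm (j II) S) (by
      simpa only [Tw.it_it, add_comm 1 m, Function.iterate_succ_apply] using h)
    obtain ⟨Q, rfl⟩ := wm_surj II_mul Q
    rw [← linkA_wm', ← sub_eq_iff_eq_add', ← map_sub] at h2
    obtain ⟨Q', R', h3, h4⟩ := linkA_one j t hF (S := S - vm j 1 Q) (h2 ▸ h1)
    exact ⟨Q + Q', R', h3, by rw [map_add, add_assoc, ← h4, add_sub_cancel]⟩

end Pool.Agent.Lib.MP_696deb_nt.Q4
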