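import Pool.Agent.Lib.MP_696deb_nt.Q4.EllB

/-! Selmer cocycles and relaxed conditions. -/

set_option autoImplicit false

open scoped Classical
open Finset

namespace Pool.Agent.Lib.MP_696deb_nt.Q4

open Sm

namespace Tw

variable (t : Tw)

/-- The cocycle condition for the twisted action. -/
def Coc (c : GQ → A) : Prop := ∀ g h, c (g * h) = c g + t.tw g (c h)

/-- The local condition up to an unramified function with values in the kernel of `w`. -/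
def LocRel (q : ℕ) (c : GQ → A) : Prop :=
  ∃ u : GQ → A, (∀ g, w • u g = 0) ∧ u (sig q) = 0 ∧ t.LocT q (c - u)

/-- Selmer cocycles of level `n`, relaxed at the primes in `J`. -/
structure IsZ (J : Set ℕ) (n : ℕ) (c : GQ → A) : Prop where
  tors : ∀ g, w ^ n • c g = 0
  coc : t.Coc c
  lc : LC c
  loc : ∀ v : ℕ, v = 0 ∨ v = 2 → t.Loc v c
  ram : ∀ q : ℕ, q.Prime → q ≠ 2 → (q : ℤ) ∣ t.N → q ∉ J → t.LocT q c
  rel : ∀ q ∈ J, t.LocRel q c
  unr : ∀ p : ℕ, p.Prime → p ≠ 2 → ¬ (p : ℤ) ∣ t.N → c (sig p) = 0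

/-- The cocycles that represent the classical Selmer group. -/
structure IsSel (n : ℕ) (c : GQ → A) : Prop where
  tors : ∀ g, w ^ n • c g = 0
  coc : t.Coc c
  lc : LC c
  loc : ∀ v : ℕ, v = 0 ∨ v.Prime → t.Loc v c

/-- The Selmer cocycles of level `n`. -/
def ZZ (n : ℕ) : Set (GQ → A) := {c | t.IsZ ∅ n c}

/-- The level one cocycles that lift to level `n + 1`. -/
def AA (n : ℕ) : Set (GQ → A) := {a | ∃ c, t.IsZ ∅ (n + 1) c ∧ w ^ n • c = a}

/-- The lifts of `a` to level `n + 1`. -/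
def Om (n : ℕ) (a : GQ → A) : Set (GQ → A) := {c | t.IsZ ∅ (n + 1) c ∧ w ^ n • c = a}

/-- Many classes lift. -/
def Big (n : ℕ) : Prop := 16 ≤ (t.AA n).ncard * ((t.it 1).AA n).ncard

variable {t} {t' : Tw} {J : Set ℕ} {n q : ℕ} {c c' : GQ → A}

theorem IsSel.isZ (ht : t.Sq) (h : t.IsSel n c) : t.IsZ ∅ n c := by
  exact ⟨h.tors, h.coc, h.lc, fun v hv => h.loc v (hv.imp_right fun e : v = 2 => e ▸ Nat.prime_two),
    fun q hq h2 hd _ => Loc.locT hq h2 (ht q hq h2 hd) (fun g _ => h.tors g) (h.loc q (Or.inr hq)),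
    fun _ hv => hv.elim, fun p hp h2 hd => loc_good hp h2 hd h.tors (h.loc p (Or.inr hp))⟩

theorem LocT.rel (h : t.LocT q c) : t.LocRel q c := by
  exact ⟨0, fun _ => smul_zero _, rfl, by rwa [sub_zero]⟩

theorem LocRel.add (h : t.LocRel q c) (h' : t.LocRel q c') : t.LocRel q (c + c') := by
  obtain ⟨u, h1, h2, h3⟩ := h
  obtain ⟨u', h1', h2', h3'⟩ := h'
  refine ⟨u + u', fun g => ?_, ?_, ?_⟩
  · rw [Pi.add_apply, smul_add, h1, h1', add_zero]
  · rw [Pi.add_apply, h2, h2', add_zero]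
  · rw [add_sub_add_comm]
    exact h3.add h3'

theorem LocRel.zsmul (h : t.LocRel q c) (k : ℤ) : t.LocRel q (k • c) := by
  obtain ⟨u, h1, h2, h3⟩ := h
  refine ⟨k • u, fun g => ?_, ?_, ?_⟩
  · rw [Pi.smul_apply, smul_comm, h1, smul_zero]
  · rw [Pi.smul_apply, h2, smul_zero]
  · rw [← smul_sub]
    exact h3.zsmul k

theorem LocRel.wsmul (h : t.LocRel q c) : (t.it 1).LocT q (w • c) := by
  obtain ⟨u, h1, -, h3⟩ := h
  refine (h3.pow 1).congr (fun _ _ => rfl) fun g _ => ?_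
  rw [pow_one, Pi.smul_apply, Pi.smul_apply, Pi.sub_apply, smul_sub, h1, sub_zero]

theorem isZ_zero (t : Tw) (J : Set ℕ) (n : ℕ) : t.IsZ J n 0 := by
  exact ⟨fun _ => smul_zero _, fun g _ => by simp, B2.Sm.const 0, fun v _ => t.loc_zero v,
    fun v _ _ _ _ => t.locT_zero v, fun v _ => (t.locT_zero v).rel, fun _ _ _ _ => rfl⟩

theorem IsZ.add (h : t.IsZ J n c) (h' : t.IsZ J n c') : t.IsZ J n (c + c') := by
  refine ⟨fun g => ?_, fun g k => ?_, lc_add h.lc h'.lc,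
    fun v hv => (h.loc v hv).add (h'.loc v hv),
    fun q hq h2 hd hJ => (h.ram q hq h2 hd hJ).add (h'.ram q hq h2 hd hJ),
    fun v hv => (h.rel v hv).add (h'.rel v hv), fun p hp h2 hd => ?_⟩
  · rw [Pi.add_apply, smul_add, h.tors, h'.tors, add_zero]
  · simp only [Pi.add_apply, map_add, h.coc g k, h'.coc g k]
    abel
  · rw [Pi.add_apply, h.unr p hp h2 hd, h'.unr p hp h2 hd, add_zero]

theorem IsZ.zsmul (h : t.IsZ J n c) (k : ℤ) : t.IsZ J n (k • c) := by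
  refine ⟨fun g => ?_, fun g l => ?_, h.lc.comp fun P => k • P,
    fun v hv => (h.loc v hv).zsmul k, fun q hq h2 hd hJ => (h.ram q hq h2 hd hJ).zsmul k,
    fun v hv => (h.rel v hv).zsmul k, fun p hp h2 hd => ?_⟩
  · rw [Pi.smul_apply, smul_comm, h.tors, smul_zero]
  · simp only [Pi.smul_apply, map_zsmul, h.coc g l, smul_add]
  · rw [Pi.smul_apply, h.unr p hp h2 hd, smul_zero]

theorem IsZ.sub (h : t.IsZ J n c) (h' : t.IsZ J n c') : t.IsZ J n (c - c') := by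
  have h1 := h.add (h'.zsmul (-1))
  rwa [neg_one_zsmul, ← sub_eq_add_neg] at h1

theorem IsZ.level {m : ℕ} (h : t.IsZ J n c) (hm : ∀ g, w ^ m • c g = 0) : t.IsZ J m c :=
  ⟨hm, h.coc, h.lc, h.loc, h.ram, h.rel, h.unr⟩

theorem IsZ.mono {J' : Set ℕ} (h : t.IsZ J n c) (hJ : J ⊆ J')
    (hJ' : ∀ q ∈ J', q.Prime ∧ q ≠ 2 ∧ (q : ℤ) ∣ t.N) : t.IsZ J' n c := by
  refine ⟨h.tors, h.coc, h.lc, h.loc, fun q hq h2 hd hn => h.ram q hq h2 hd fun k => hn (hJ k),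
    fun q hq => ?_, h.unr⟩
  by_cases k : q ∈ J
  · exact h.rel q k
  · exact (h.ram q (hJ' q hq).1 (hJ' q hq).2.1 (hJ' q hq).2.2 k).rel

theorem IsZ.wsmul (h : t.IsZ J (n + 1) c) : (t.it 1).IsZ ∅ n (w • c) := by
  refine ⟨fun g => ?_, fun g k => ?_, h.lc.comp fun P => w • P, fun v hv => ?_,
    fun q hq h2 hd _ => ?_, fun _ hv => hv.elim, fun p hp h2 hd => ?_⟩
  · rw [Pi.smul_apply, smul_smul, ← pow_succ, h.tors]
  · have := t.w_tw 1 g (c k)
    rw [pow_one] at this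
    simp only [Pi.smul_apply, h.coc g k, smul_add, this]
  · simpa only [pow_one] using (h.loc v hv).pow 1
  · by_cases k : q ∈ J
    · exact (h.rel q k).wsmul
    · simpa only [pow_one] using (h.ram q hq h2 ((t.dvd_it hq h2 1).1 hd) k).pow 1
  · rw [Pi.smul_apply, h.unr p hp h2 fun e => hd ((t.dvd_it hp h2 1).2 e), smul_zero]

theorem IsZ.pow {k : ℕ} (h : t.IsZ ∅ (n + k) c) : (t.it k).IsZ ∅ n (w ^ k • c) := by
  refine ⟨fun g => ?_, fun g l => ?_, h.lc.comp fun P => w ^ k • P, fun v hv => (h.loc v hv).pow k,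
    fun q hq h2 hd hJ => (h.ram q hq h2 ((t.dvd_it hq h2 k).1 hd) hJ).pow k, fun _ hv => hv.elim,
    fun p hp h2 hd => ?_⟩
  · rw [Pi.smul_apply, smul_smul, ← pow_add, h.tors]
  · simp only [Pi.smul_apply, h.coc g l, smul_add, t.w_tw k g]
  · rw [Pi.smul_apply, h.unr p hp h2 fun e => hd ((t.dvd_it hp h2 k).2 e), smul_zero]

theorem IsZ.congr (h : t.IsZ ∅ n c) (hz : ∀ g, zq t'.ρ g = zq t.ρ g)
    (hN : ∀ q : ℕ, q.Prime → q ≠ 2 → ((q : ℤ) ∣ t'.N ↔ (q : ℤ) ∣ t.N)) : t'.IsZ ∅ n c := by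
  exact ⟨h.tors, fun g k => by rw [tw_congr (hz g), h.coc], h.lc,
    fun v hv => (h.loc v hv).congr (fun g _ => hz g) fun _ _ => rfl,
    fun q hq h2 hd hJ => (h.ram q hq h2 ((hN q hq h2).1 hd) hJ).congr (fun g _ => hz g)
      fun _ _ => rfl,
    fun _ hv => hv.elim, fun p hp h2 hd => h.unr p hp h2 fun e => hd ((hN p hp h2).2 e)⟩

theorem IsZ.rot (h : t.IsZ ∅ n c) (hz : ∀ g, zq t'.ρ g = zq t.ρ g * zq II g)
    (hN : ∀ q : ℕ, q.Prime → q ≠ 2 → ((q : ℤ) ∣ t'.N ↔ (q : ℤ) ∣ t.N)) :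
    t'.IsZ ∅ n (ii • c) := by
  refine ⟨fun g => ?_, fun g k => ?_, h.lc.comp fun P => ii • P, fun v hv => (h.loc v hv).rot hz,
    fun q hq h2 hd hJ => (h.ram q hq h2 ((hN q hq h2).1 hd) hJ).rot hz, fun _ hv => hv.elim,
    fun p hp h2 hd => ?_⟩
  · rw [Pi.smul_apply, smul_comm, h.tors, smul_zero]
  · simp only [Pi.smul_apply, h.coc g k, smul_add, ii_tw (hz g)]
  · rw [Pi.smul_apply, h.unr p hp h2 fun e => hd ((hN p hp h2).2 e), smul_zero]

theorem IsZ.kum (h : t.IsZ J n c) (h2 : ∀ g, w • c g = 0) : ∃ d : ℤ, Squarefree d ∧ c = kum d := by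
  exact exists_kum h2 (fun g k => by rw [h.coc, t.tw_ker g (h2 k)]) h.lc

/-- A set of group elements that detects level one detects every level. -/
theorem detect {S : Set GQ} (h1 : ∀ j c, (t.it j).IsZ ∅ 1 c → (∀ g ∈ S, c g = 0) → c = 0)
    (h : t.IsZ ∅ n c) (hS : ∀ g ∈ S, c g = 0) : c = 0 := by
  induction n generalizing t c with
  | zero => exact funext fun g => by simpa using h.tors g
  | succ n ih =>
    have h2 := ih (t := t.it 1) (fun j c hc => h1 (1 + j) c (by rwa [it_it] at hc)) h.wsmul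
      fun g hg => by rw [Pi.smul_apply, hS g hg, smul_zero]
    refine h1 0 c ?_ hS
    rw [it_zero]
    exact h.level fun g => by rw [pow_one]; exact congrFun h2 g

theorem AA_zero (t : Tw) : t.AA 0 = t.ZZ 1 := by
  ext a
  simp [AA, ZZ]

theorem AA_sub (t : Tw) (n : ℕ) : t.AA n ⊆ (t.it n).ZZ 1 := by
  rintro a ⟨c, hc, rfl⟩
  exact IsZ.pow (n := 1) (by rwa [add_comm])

theorem AA_succ (t : Tw) (n : ℕ) : t.AA (n + 1) ⊆ (t.it 1).AA n := by
  rintro a ⟨c, hc, rfl⟩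
  exact ⟨w • c, hc.wsmul, by rw [smul_smul, ← pow_succ]⟩

theorem sel_rot (hz : ∀ g, zq t'.ρ g = zq t.ρ g * zq II g)
    (hN : ∀ q : ℕ, q.Prime → q ≠ 2 → ((q : ℤ) ∣ t'.N ↔ (q : ℤ) ∣ t.N)) (n : ℕ) :
    t.AA n ⊆ t'.AA n := by
  rintro a ⟨c, hc, rfl⟩
  refine ⟨ii • c, hc.rot hz hN, funext fun g => ?_⟩
  rw [Pi.smul_apply, Pi.smul_apply, Pi.smul_apply, smul_comm]
  exact unit_smul isUnit_ii (by rw [smul_smul, ← pow_succ', hc.tors])

theorem sel_same (h : t'.N = t.N) (n : ℕ) : t.AA n ⊆ t'.AA n := by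
  rcases zq_same h with e | e
  · rintro a ⟨c, hc, rfl⟩
    exact ⟨c, hc.congr e fun _ _ _ => by rw [h], rfl⟩
  · exact sel_rot e (fun _ _ _ => by rw [h]) n

theorem AA_it_two (t : Tw) (n : ℕ) : (t.it 2).AA n = t.AA n := by
  exact (sel_rot (fun g => (t.zq_it_two g).2) (fun q hq h2 => (t.dvd_it hq h2 2).symm) n).antisymm
    (sel_rot (fun g => (t.zq_it_two g).1) (fun q hq h2 => t.dvd_it hq h2 2) n)

theorem AA_same (h : t'.N = t.N) (n : ℕ) : t'.AA n = t.AA n := by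
  exact (sel_same h.symm n).antisymm (sel_same h n)

theorem ZZ_it (t : Tw) (m : ℕ) : (t.it (2 * m)).ZZ 1 = t.ZZ 1 := by
  induction m with
  | zero => rw [mul_zero, it_zero]
  | succ m ih => rw [mul_add, mul_one, ← it_it, ← AA_zero, AA_it_two, AA_zero, ih]

theorem Big.same (h : t.Big n) (hN : t'.N = t.N) : t'.Big n := by
  rw [Big, AA_same hN, AA_same (t := t.it 1) (t' := t'.it 1) (by simp only [Tw.it, hN])]
  exact h

theorem Big.it (h : t.Big n) : (t.it 1).Big n := by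
  rw [Big, it_it, AA_it_two, mul_comm]
  exact h

theorem add_mem_AA (h : c ∈ t.AA n) (h' : c' ∈ t.AA n) : c + c' ∈ t.AA n := by
  obtain ⟨a, ha, rfl⟩ := h
  obtain ⟨b, hb, rfl⟩ := h'
  exact ⟨a + b, ha.add hb, smul_add _ _ _⟩

theorem del_mem_AA (t : Tw) (n : ℕ) (b : F2) :
    (fun g => kT (b * chi (t.it n).N g)) ∈ t.AA n := by
  obtain ⟨Q, hQ⟩ := exists_root (n + 1) (kT b)
  have h0 : w ^ (n + 1 + 1) • Q = 0 := by rw [pow_succ', mul_smul, hQ, w_kT]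
  refine ⟨t.cob Q, ⟨fun g => ?_, t.cob_mul Q, t.lc_cob Q, fun v _ => ⟨Q, fun _ _ => rfl⟩,
    fun q _ _ _ _ => ⟨Q, ⟨_, h0⟩, fun _ _ => rfl⟩, fun _ hv => hv.elim, fun p hp h2 hd => ?_⟩,
    funext fun g => ?_⟩
  · rw [w_cob, hQ, cob, tw_ker _ g (w_kT b), sub_self]
  · rw [t.cob_sig hp h2 h0, zq_ine hp h2 t.pw hd _ (sig_ine hp h2), uu_one, zero_smul]
  · rw [Pi.smul_apply, w_cob]
    exact (t.it n).cob_half (by rw [smul_smul, ← pow_succ', hQ]) g

/-- A class of level one comes from a divisor of `2 N`. -/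
theorem exists_dvd (h : t.IsZ ∅ 1 c) : ∃ d : ℤ, Squarefree d ∧
    (∀ p : ℕ, p.Prime → (p : ℤ) ∣ d → (p : ℤ) ∣ 2 * t.N) ∧ c = kum d := by
  obtain ⟨d, hd, rfl⟩ := h.kum fun g => by simpa only [pow_one] using h.tors g
  refine ⟨d, hd, fun p hp k => ?_, rfl⟩
  by_contra e
  have := Fact.mk hp
  have h2 : p ≠ 2 := by
    rintro rfl
    exact e (Dvd.dvd.mul_right (by norm_num) _)
  have h3 : chi d (sig p) = 0 :=
    kT_inj ((h.unr p hp h2 fun a => e (a.mul_left 2)).trans (map_zero kT).symm)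
  rw [chi_sig hp h2 hd.ne_zero] at h3
  have h4 : 1 ≤ padicValInt p d :=
    ((padicValInt_dvd_iff 1 d).1 (by rwa [pow_one])).resolve_left hd.ne_zero
  have h5 : ¬ 2 ≤ padicValInt p d := fun a => (Nat.prime_iff_prime_int.1 hp).not_isUnit
    (hd _ (by rw [← sq]; exact (padicValInt_dvd_iff 2 d).2 (Or.inr a)))
  rw [show padicValInt p d = 1 by omega, Nat.cast_one] at h3
  exact one_ne_zero h3

theorem finite_one (t : Tw) : (t.ZZ 1).Finite := by
  have h0 : 2 * t.N ≠ 0 := mul_ne_zero (by norm_num) t.ne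
  refine ((Set.finite_Icc (-|2 * t.N|) |2 * t.N|).image kum).subset fun c hc => ?_
  obtain ⟨d, hd, h, rfl⟩ := exists_dvd hc
  have h2 : d.natAbs ∣ (2 * t.N).natAbs := by
    rw [← Nat.prod_primeFactors_of_squarefree (Int.squarefree_natAbs.2 hd)]
    refine (prod_dvd_prod_of_subset _ _ _ fun p hp => ?_).trans (Nat.prod_primeFactors_dvd _)
    have hp := Nat.mem_primeFactors.1 hp
    exact Nat.mem_primeFactors.2 ⟨hp.1, Int.natCast_dvd.1 (h p hp.1 (Int.natCast_dvd.2 hp.2.1)),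
      Int.natAbs_ne_zero.2 h0⟩
  exact ⟨d, abs_le.1 (Int.le_of_dvd (abs_pos.2 h0)
    ((abs_dvd_abs _ _).2 (Int.natAbs_dvd_natAbs.1 h2))), rfl⟩

end Tw

end Pool.Agent.Lib.MP_696deb_nt.Q4
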